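import Pool.Agent.U818.FC.Red

/-!
# Polynomials with few critical points
-/

set_option autoImplicit false

open Polynomial MeasureTheory Set Filter Topology Metric

namespace Pool.Agent.U818.FC

lemma zoneSet_le (F : ℂ[X]) {k : ℕ} (hk : F.derivative.roots.toFinset.card ≤ k) {M : ℝ}
    (hM1 : 1 ≤ M) (hN : 2 ≤ F.natDegree) (hM : ∀ c ∈ F.derivative.roots, ‖c‖ ≤ M) (C₀ : ℕ)
    {θ : ℝ} (hθ0 : 0 < θ) (hθ1 : θ ≤ 1) (v : ℂ) {r : ℝ} (hr : 0 ≤ r) (n : ℕ)
    {y : ℝ} (hy : C₀ * Real.log F.natDegree / ((F.natDegree - 1 : ℕ) : ℝ) ≤ y) :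
    volume (zoneSet F C₀ M r v) ≤ ENNReal.ofReal
      (48 * k * (10 * M) ^ k * (r * y / θ ^ (k - 1)) +
      ((∑ i ∈ Finset.range n, ((k - 1 : ℕ) : ℝ) *
        (48 * k * (10 * M) ^ k * (θ * (1 / 2) ^ i * y / (θ * (1 / 2) ^ (i + 1)) ^ (k - 1)))) +
        ((k - 1 : ℕ) : ℝ) * (Real.pi * (θ * (1 / 2) ^ n) ^ 2))) := by
  have hd : F.derivative.natDegree = F.natDegree - 1 := natDegree_derivative F
  have hd0 : 0 < F.derivative.natDegree := by rw [hd]; omega
  have hL0 : 0 ≤ C₀ * Real.log F.natDegree := by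
    have : 0 ≤ Real.log F.natDegree := Real.log_natCast_nonneg _
    positivity
  have hD : (0 : ℝ) < ((F.natDegree - 1 : ℕ) : ℝ) := by
    have : 0 < F.natDegree - 1 := by omega
    exact_mod_cast this
  have hy0 : 0 ≤ y := le_trans (div_nonneg hL0 hD.le) hy
  have h := zone F.derivative hd0 hk hM (ρ := 9 * M) (by linarith) hθ0 hθ1 hL0 v hr n
  rw [show 9 * M + M = 10 * M by ring, hd] at h
  have h' : volume (zoneSet F C₀ M r v) ≤ _ := h
  refine h'.trans ?_
  have hterm : ∀ {a b : ℝ}, 0 ≤ a → 0 < b →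
      a * (C₀ * Real.log F.natDegree) / (((F.natDegree - 1 : ℕ) : ℝ) * b) ≤ a * y / b := by
    intro a b ha hb
    have h1 : a * (C₀ * Real.log F.natDegree) / (((F.natDegree - 1 : ℕ) : ℝ) * b) =
        a / b * (C₀ * Real.log F.natDegree / ((F.natDegree - 1 : ℕ) : ℝ)) := by
      field_simp
    have h2 : a * y / b = a / b * y := by ring
    rw [h1, h2]
    exact mul_le_mul_of_nonneg_left hy (by positivity)
  rw [ENNReal.ofReal_add (by positivity) (by positivity), ENNReal.ofReal_add (by positivity)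
    (by positivity), ENNReal.ofReal_sum_of_nonneg (fun i _ => by positivity)]
  refine add_le_add ?_ (add_le_add (Finset.sum_le_sum (fun i _ => ?_)) ?_)
  · apply ENNReal.ofReal_le_ofReal
    exact mul_le_mul_of_nonneg_left (hterm hr (by positivity)) (by positivity)
  · rw [ENNReal.ofReal_mul (p := ((k - 1 : ℕ) : ℝ)) (by positivity), ENNReal.ofReal_natCast]
    refine mul_le_mul' le_rfl (ENNReal.ofReal_le_ofReal ?_)
    exact mul_le_mul_of_nonneg_left (hterm (by positivity) (by positivity)) (by positivity)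
  · rw [ENNReal.ofReal_mul (p := ((k - 1 : ℕ) : ℝ)) (by positivity), ENNReal.ofReal_natCast]

/-- The set of the critical values. -/
noncomputable def critVal (F : ℂ[X]) : Finset ℂ :=
  open Classical in F.derivative.roots.toFinset.image (fun c => F.eval c)

lemma critVal_card (F : ℂ[X]) : (critVal F).card ≤ F.derivative.roots.toFinset.card := by
  classical
  rw [critVal]
  exact Finset.card_image_le

lemma mem_critVal (F : ℂ[X]) {c : ℂ} (hc : c ∈ F.derivative.roots) : F.eval c ∈ critVal F := by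
  classical
  rw [critVal, Finset.mem_image]
  exact ⟨c, Multiset.mem_toFinset.2 hc, rfl⟩

lemma y_bound {N k : ℕ} (hN : 2 ≤ N) :
    ((k + 10 : ℕ) : ℝ) * Real.log N / ((N - 1 : ℕ) : ℝ) ≤
      2 * (k + 10) * (Real.log N / N) := by
  have hN2 : (2 : ℝ) ≤ N := by exact_mod_cast hN
  have h1 : ((N - 1 : ℕ) : ℝ) = N - 1 := by
    rw [Nat.cast_sub (by omega)]; simp
  have hlog : 0 ≤ Real.log N := Real.log_natCast_nonneg _
  rw [h1, div_le_iff₀ (by linarith)]
  push_cast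
  have h2 : 2 * ((k : ℝ) + 10) * (Real.log N / N) * (N - 1) =
      ((k : ℝ) + 10) * Real.log N * (2 * (N - 1) / N) := by
    field_simp
  rw [h2]
  have h3 : 1 ≤ 2 * ((N : ℝ) - 1) / N := by
    rw [le_div_iff₀ (by linarith)]
    linarith
  have h4 : 0 ≤ ((k : ℝ) + 10) * Real.log N := by positivity
  nlinarith

/-- The distance to the hyperbolic parameters. -/
theorem distance {k : ℕ} (hk1 : 1 ≤ k) {M : ℝ} (hM1 : 1 ≤ M) :
    ∃ n₀ : ℕ, ∀ F : ℂ[X], n₀ ≤ F.natDegree → F.derivative.roots.toFinset.card ≤ k →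
      (∀ c ∈ F.derivative.roots, ‖c‖ ≤ M) → ‖F.eval 0‖ ≤ M →
      ∃ t : ℂ, ‖t‖ ≤ (48 * k * (10 * M) ^ k * (2 * k) ^ k * (2 * (k + 10)) *
        (Real.log F.natDegree / F.natDegree)) ^ ((1 : ℝ) / k) ∧ Hyperbolic k (F + C t) := by
  have hk0 : (0 : ℝ) < k := by exact_mod_cast hk1
  have hk1' : (1 : ℝ) ≤ k := by exact_mod_cast hk1
  set A : ℝ := 48 * k * (10 * M) ^ k with hA
  have hA0 : 0 < A := by positivity
  set H : ℝ := A * (2 * k) ^ k with hH
  have hH0 : 0 < H := by positivity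
  have hA1 : 1 ≤ A := by
    have h1 : (1 : ℝ) ≤ (10 * M) ^ k := one_le_pow₀ (by linarith)
    have h2 : (1 : ℝ) ≤ 48 * k := by linarith
    exact one_le_mul_of_one_le_of_one_le h2 h1
  have hH1 : 1 ≤ H := one_le_mul_of_one_le_of_one_le hA1 (one_le_pow₀ (by linarith))
  have hlim : Tendsto (fun N : ℕ => H * (2 * (k + 10)) * (Real.log N / N)) atTop (𝓝 0) := by
    have h1 : Tendsto (fun x : ℝ => Real.log x / x) atTop (𝓝 0) := by
      have := Real.isLittleO_log_id_atTop.tendsto_div_nhds_zero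
      exact this
    have h2 := (h1.comp tendsto_natCast_atTop_atTop).const_mul (H * (2 * (k + 10)))
    rw [mul_zero] at h2
    exact h2
  have e1 := hlim.eventually (gt_mem_nhds (by norm_num : (0 : ℝ) < 1))
  have e2 : ∀ᶠ N : ℕ in atTop, Real.pi * k * (1 + 1024 * k * M ^ 2) < (N : ℝ) :=
    tendsto_natCast_atTop_atTop.eventually_gt_atTop _
  obtain ⟨n₀, hn₀⟩ := eventually_atTop.1 (((large_ev k M).and (e1.and e2)).and
    (eventually_ge_atTop 5))
  refine ⟨n₀, fun F hF hk hM h0 => ?_⟩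
  obtain ⟨⟨hL, hy1, hN⟩, h5⟩ := hn₀ _ hF
  have hNpos : (0 : ℝ) < F.natDegree := by
    have : 0 < F.natDegree := by omega
    exact_mod_cast this
  have hN5 : (5 : ℝ) ≤ F.natDegree := by exact_mod_cast h5
  set y : ℝ := 2 * (k + 10) * (Real.log F.natDegree / F.natDegree) with hy
  have hlog1 : 1 ≤ Real.log F.natDegree := by
    rw [Real.le_log_iff_exp_le hNpos]
    have := Real.exp_one_lt_d9
    linarith
  have hy0 : 0 < y := by
    have : 0 < Real.log F.natDegree := by linarith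
    positivity
  have hyN : 1 / (F.natDegree : ℝ) ≤ y := by
    rw [hy, ← mul_div_assoc]
    apply div_le_div_of_nonneg_right _ hNpos.le
    nlinarith
  have hHy : H * (2 * (k + 10)) * (Real.log F.natDegree / F.natDegree) = H * y := by
    rw [hy]; ring
  rw [hHy] at hy1
  have hHy0 : 0 < H * y := by positivity
  set r : ℝ := (H * y) ^ ((1 : ℝ) / k) with hr
  have hr0 : 0 < r := Real.rpow_pos_of_pos hHy0 _
  have hrk : r ^ k = H * y := by
    rw [hr, ← Real.rpow_natCast, ← Real.rpow_mul hHy0.le, one_div, inv_mul_cancel₀ hk0.ne',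
      Real.rpow_one]
  have hr1 : r ≤ 1 := Real.rpow_le_one hHy0.le hy1.le (by positivity)
  have hrN : 1 / (F.natDegree : ℝ) ≤ r := by
    calc 1 / (F.natDegree : ℝ) ≤ y := hyN
      _ ≤ H * y := le_mul_of_one_le_left hy0.le hH1
      _ = r ^ k := hrk.symm
      _ ≤ r := pow_le_of_le_one hr0.le hr1 (by omega)
  set θ : ℝ := r / (2 * k) with hθ
  have hθ0 : 0 < θ := by positivity
  have hθ1 : θ ≤ 1 := by
    rw [hθ, div_le_one (by positivity)]
    linarith
  -- the zone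
  have hz : ∀ v : ℂ, volume (zoneSet F (k + 10) M r v) ≤
      ENNReal.ofReal (r ^ 2 / (2 * k) + Real.pi * r ^ 2 / (4 * k)) := by
    intro v
    refine (zoneSet_le F hk hM1 (by omega) hM (k + 10) hθ0 hθ1 v hr0.le 0
      (y_bound (k := k) (by omega))).trans (ENNReal.ofReal_le_ofReal ?_)
    rw [Finset.sum_range_zero, zero_add, pow_zero, mul_one, ← hy, ← hA]
    refine add_le_add ?_ ?_
    · -- main term
      obtain ⟨m, hm⟩ : ∃ m, k = m + 1 := ⟨k - 1, by omega⟩
      have h1 : A * (r * y / θ ^ (k - 1)) = r ^ 2 / (2 * k) := by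
        have h2 : r ^ m * r = H * y := by rw [← pow_succ, ← hm]; exact hrk
        have h3 : H = A * ((2 * k) ^ m * (2 * k)) := by
          rw [hH, ← pow_succ, ← hm]
        have h4 : θ ^ (k - 1) = r ^ m / (2 * k) ^ m := by
          rw [hθ, div_pow, hm, Nat.add_sub_cancel]
        rw [h4]
        have hrm : 0 < r ^ m := by positivity
        have h5 : y = r ^ m * r / H := by
          rw [h2]
          field_simp
        rw [h5, h3]
        field_simp
      exact le_of_eq h1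
    · have h1 : ((k - 1 : ℕ) : ℝ) ≤ k := by exact_mod_cast Nat.sub_le k 1
      have h2 : Real.pi * r ^ 2 / (4 * k) = k * (Real.pi * θ ^ 2) := by
        rw [hθ]
        field_simp
        ring
      rw [h2]
      exact mul_le_mul_of_nonneg_right h1 (by positivity)
  have hVk : (critVal F).card ≤ k := (critVal_card F).trans hk
  have hred := reduction F hk1 hM1 hL hM h0 (critVal F) hVk (fun c hc => mem_critVal F hc)
    (r := r) (hr1.trans hM1)
  have hsum : ∑ v ∈ critVal F, volume (zoneSet F (k + 10) M r v) ≤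
      ENNReal.ofReal (r ^ 2 / 2 + Real.pi * r ^ 2 / 4) := by
    refine (Finset.sum_le_sum (fun v _ => hz v)).trans ?_
    rw [Finset.sum_const, nsmul_eq_mul]
    calc ((critVal F).card : ENNReal) *
          ENNReal.ofReal (r ^ 2 / (2 * k) + Real.pi * r ^ 2 / (4 * k))
        ≤ (k : ENNReal) * ENNReal.ofReal (r ^ 2 / (2 * k) + Real.pi * r ^ 2 / (4 * k)) := by
          gcongr
      _ = ENNReal.ofReal (r ^ 2 / 2 + Real.pi * r ^ 2 / 4) := by
          rw [← ENNReal.ofReal_natCast, ← ENNReal.ofReal_mul (by positivity)]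
          congr 1
          field_simp
  by_contra hcon
  push Not at hcon
  have hall : closedBall (0 : ℂ) r ⊆ {t : ℂ | ‖t‖ ≤ r ∧ ¬ Hyperbolic k (F + C t)} := by
    intro t ht
    rw [mem_closedBall, dist_zero_right] at ht
    refine ⟨ht, hcon t (ht.trans (le_of_eq ?_))⟩
    rw [hr]
    congr 1
    rw [hy, hH]
    ring
  have h1 := (measure_mono hall).trans (hred.trans (add_le_add hsum le_rfl))
  rw [volume_closedBall_eq 0 hr0.le, ← ENNReal.ofReal_add (by positivity) (by positivity),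
    ENNReal.ofReal_le_ofReal_iff (by positivity)] at h1
  have h2 : Real.pi * k * (1 + 1024 * k * M ^ 2) / (F.natDegree : ℝ) ^ 3 < r ^ 2 := by
    calc Real.pi * k * (1 + 1024 * k * M ^ 2) / (F.natDegree : ℝ) ^ 3
        < F.natDegree / (F.natDegree : ℝ) ^ 3 :=
          div_lt_div_of_pos_right hN (by positivity)
      _ = (1 / (F.natDegree : ℝ)) ^ 2 := by field_simp
      _ ≤ r ^ 2 := pow_le_pow_left₀ (by positivity) hrN 2
  have h3 : 3 < Real.pi := Real.pi_gt_three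
  have h4 : 0 < r ^ 2 := by positivity
  nlinarith

lemma geom_le (y : ℝ) (hy : 2 ≤ y) (n : ℕ) : ∑ i ∈ Finset.range n, y ^ i ≤ y ^ n := by
  induction n with
  | zero => simp
  | succ n ih =>
    rw [Finset.sum_range_succ, pow_succ]
    have : 0 < y ^ n := by positivity
    nlinarith

/-- The area of the zone for at least three critical points. -/
lemma zone_three {k : ℕ} (hk3 : 3 ≤ k) {M : ℝ} (hM1 : 1 ≤ M) {y : ℝ} (hy0 : 0 < y) (hy1 : y < 1) :
    ∃ n : ℕ, (48 * k * (10 * M) ^ k * (M * y / (1 : ℝ) ^ (k - 1)) +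
      ((∑ i ∈ Finset.range n, ((k - 1 : ℕ) : ℝ) *
        (48 * k * (10 * M) ^ k * (1 * (1 / 2) ^ i * y / (1 * (1 / 2) ^ (i + 1)) ^ (k - 1)))) +
        ((k - 1 : ℕ) : ℝ) * (Real.pi * (1 * (1 / 2) ^ n) ^ 2))) ≤
      (48 * k * (10 * M) ^ k * M + k * (48 * k * (10 * M) ^ k) * 2 ^ k + 4 * k * Real.pi) *
        y ^ ((2 : ℝ) / k) := by
  have hk0 : (0 : ℝ) < k := by
    have : 0 < k := by omega
    exact_mod_cast this
  set A : ℝ := 48 * k * (10 * M) ^ k with hA
  have hA0 : 0 < A := by positivity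
  set x : ℝ := y ^ (-((1 : ℝ) / k)) with hx
  have hx0 : 0 < x := Real.rpow_pos_of_pos hy0 _
  have hx1 : 1 ≤ x := by
    rw [hx]
    apply Real.one_le_rpow_of_pos_of_le_one_of_nonpos hy0 hy1.le
    rw [neg_nonpos]
    positivity
  have hxk : x ^ k = y⁻¹ := by
    rw [hx, ← Real.rpow_natCast, ← Real.rpow_mul hy0.le]
    have : -((1 : ℝ) / k) * k = -1 := by field_simp
    rw [this, Real.rpow_neg_one]
  have hs : y ^ ((2 : ℝ) / k) = (x ^ 2)⁻¹ := by
    rw [hx, ← Real.rpow_natCast, ← Real.rpow_mul hy0.le, ← Real.rpow_neg hy0.le]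
    congr 1
    push_cast
    ring
  obtain ⟨n, hn1, hn2⟩ := exists_nat_pow_near hx1 (by norm_num : (1 : ℝ) < 2)
  refine ⟨n, ?_⟩
  obtain ⟨m, hm⟩ : ∃ m, k = m + 2 := ⟨k - 2, by omega⟩
  have hm1 : 1 ≤ m := by omega
  have hyx : y * x ^ m = (x ^ 2)⁻¹ := by
    have h1 : y = (x ^ k)⁻¹ := by rw [hxk, inv_inv]
    rw [h1, hm, pow_add]
    field_simp
  have hk1 : ((k - 1 : ℕ) : ℝ) ≤ k := by exact_mod_cast Nat.sub_le k 1
  rw [hs]
  -- first term
  have t1 : A * (M * y / (1 : ℝ) ^ (k - 1)) ≤ A * M * (x ^ 2)⁻¹ := by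
    rw [one_pow, div_one]
    have h1 : y ≤ (x ^ 2)⁻¹ := by
      rw [← hyx]
      exact le_mul_of_one_le_right hy0.le (one_le_pow₀ hx1)
    calc A * (M * y) = A * M * y := by ring
      _ ≤ _ := mul_le_mul_of_nonneg_left h1 (by positivity)
  -- the dyadic terms
  have hterm : ∀ i : ℕ, ((1 : ℝ) * (1 / 2) ^ i * y / (1 * (1 / 2) ^ (i + 1)) ^ (k - 1)) =
      2 ^ (m + 1) * y * (2 ^ m) ^ i := by
    intro i
    have h1 : k - 1 = m + 1 := by omega
    rw [h1, one_mul, one_mul, one_div, inv_pow, inv_pow, inv_pow]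
    field_simp
    rw [← pow_mul, ← pow_mul, ← pow_add, ← pow_add]
    congr 1
    ring
  have t2 : ∑ i ∈ Finset.range n, ((k - 1 : ℕ) : ℝ) *
        (A * (1 * (1 / 2) ^ i * y / (1 * (1 / 2) ^ (i + 1)) ^ (k - 1))) ≤
      k * A * 2 ^ k * (x ^ 2)⁻¹ := by
    rw [← Finset.mul_sum, ← Finset.mul_sum, Finset.sum_congr rfl (fun i _ => hterm i),
      ← Finset.mul_sum]
    have h1 : ∑ i ∈ Finset.range n, ((2 : ℝ) ^ m) ^ i ≤ x ^ m := by
      refine (geom_le _ ?_ n).trans ?_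
      · calc (2 : ℝ) = 2 ^ 1 := by norm_num
          _ ≤ 2 ^ m := pow_le_pow_right₀ (by norm_num) hm1
      · rw [← pow_mul, mul_comm, pow_mul]
        exact pow_le_pow_left₀ (by positivity) hn1 m
    have h2 : (2 : ℝ) ^ (m + 1) ≤ 2 ^ k := pow_le_pow_right₀ (by norm_num) (by omega)
    calc ((k - 1 : ℕ) : ℝ) * (A * (2 ^ (m + 1) * y * ∑ i ∈ Finset.range n, ((2 : ℝ) ^ m) ^ i))
        ≤ k * (A * (2 ^ k * y * x ^ m)) := by
          gcongr
      _ = k * A * 2 ^ k * (y * x ^ m) := by ring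
      _ = _ := by rw [hyx]
  have t3 : ((k - 1 : ℕ) : ℝ) * (Real.pi * (1 * (1 / 2) ^ n) ^ 2) ≤
      4 * k * Real.pi * (x ^ 2)⁻¹ := by
    have h1 : ((1 : ℝ) * (1 / 2) ^ n) ^ 2 ≤ 4 * (x ^ 2)⁻¹ := by
      have h2 : (1 : ℝ) * (1 / 2) ^ n ≤ 2 * x⁻¹ := by
        rw [one_mul, one_div, inv_pow, ← div_eq_mul_inv, le_div_iff₀ hx0,
          inv_mul_le_iff₀ (by positivity)]
        rw [pow_succ] at hn2
        exact hn2.le
      calc ((1 : ℝ) * (1 / 2) ^ n) ^ 2 ≤ (2 * x⁻¹) ^ 2 :=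
            pow_le_pow_left₀ (by positivity) h2 2
        _ = 4 * (x ^ 2)⁻¹ := by rw [mul_pow, inv_pow]; norm_num
    calc ((k - 1 : ℕ) : ℝ) * (Real.pi * (1 * (1 / 2) ^ n) ^ 2)
        ≤ k * (Real.pi * (4 * (x ^ 2)⁻¹)) := by gcongr
      _ = _ := by ring
  calc _ ≤ A * M * (x ^ 2)⁻¹ + (k * A * 2 ^ k * (x ^ 2)⁻¹ + 4 * k * Real.pi * (x ^ 2)⁻¹) :=
        add_le_add t1 (add_le_add t2 t3)
    _ = _ := by ring

/-- The area of the zone for at most two critical points. -/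
lemma zone_two {k : ℕ} (hk2 : k ≤ 2) {M : ℝ} (hM1 : 1 ≤ M) {y : ℝ} (hy0 : 0 < y) {N : ℕ}
    (hN : 2 ≤ N) :
    ∃ n : ℕ, (48 * k * (10 * M) ^ k * (M * y / (1 : ℝ) ^ (k - 1)) +
      ((∑ i ∈ Finset.range n, ((k - 1 : ℕ) : ℝ) *
        (48 * k * (10 * M) ^ k * (1 * (1 / 2) ^ i * y / (1 * (1 / 2) ^ (i + 1)) ^ (k - 1)))) +
        ((k - 1 : ℕ) : ℝ) * (Real.pi * (1 * (1 / 2) ^ n) ^ 2))) ≤
      48 * k * (10 * M) ^ k * M * y + 48 * k * (10 * M) ^ k * (4 * Real.log N) * y +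
        4 * Real.pi / (N : ℝ) ^ 2 := by
  set A : ℝ := 48 * k * (10 * M) ^ k with hA
  have hA0 : 0 ≤ A := by positivity
  have hNpos : (0 : ℝ) < N := by
    have : 0 < N := by omega
    exact_mod_cast this
  refine ⟨Nat.log 2 N, ?_⟩
  set n := Nat.log 2 N with hn
  have hn1 : (2 : ℝ) ^ n ≤ N := by exact_mod_cast Nat.pow_log_le_self 2 (by omega)
  have hn2 : (N : ℝ) < 2 ^ (n + 1) := by
    exact_mod_cast Nat.lt_pow_succ_log_self (by norm_num) N
  have hk1 : ((k - 1 : ℕ) : ℝ) ≤ 1 := by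
    have : k - 1 ≤ 1 := by omega
    exact_mod_cast this
  have hnlog : (n : ℝ) ≤ 2 * Real.log N := by
    have h1 : (n : ℝ) * Real.log 2 ≤ Real.log N := by
      rw [← Real.log_pow]
      exact Real.log_le_log (by positivity) hn1
    have h2 := Real.log_two_gt_d9
    have h3 : (0 : ℝ) ≤ n := by positivity
    nlinarith
  have hterm : ∀ i : ℕ, ((1 : ℝ) * (1 / 2) ^ i * y / (1 * (1 / 2) ^ (i + 1)) ^ (k - 1)) ≤
      2 * y := by
    intro i
    have h1 : k - 1 = 0 ∨ k - 1 = 1 := by omega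
    rcases h1 with h | h
    · rw [h, pow_zero, div_one, one_mul]
      have : ((1 : ℝ) / 2) ^ i ≤ 1 := pow_le_one₀ (by norm_num) (by norm_num)
      nlinarith
    · rw [h, pow_one, one_mul, one_mul, pow_succ]
      apply le_of_eq
      field_simp
  have t1 : A * (M * y / (1 : ℝ) ^ (k - 1)) = A * M * y := by
    rw [one_pow, div_one]; ring
  have t2 : ∑ i ∈ Finset.range n, ((k - 1 : ℕ) : ℝ) *
        (A * (1 * (1 / 2) ^ i * y / (1 * (1 / 2) ^ (i + 1)) ^ (k - 1))) ≤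
      A * (4 * Real.log N) * y := by
    calc ∑ i ∈ Finset.range n, ((k - 1 : ℕ) : ℝ) *
          (A * (1 * (1 / 2) ^ i * y / (1 * (1 / 2) ^ (i + 1)) ^ (k - 1)))
        ≤ ∑ _i ∈ Finset.range n, 1 * (A * (2 * y)) := by
          refine Finset.sum_le_sum (fun i _ => ?_)
          exact mul_le_mul hk1 (mul_le_mul_of_nonneg_left (hterm i) hA0) (by positivity)
            (by norm_num)
      _ = n * (A * (2 * y)) := by
          rw [Finset.sum_const, Finset.card_range, nsmul_eq_mul, one_mul]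
      _ ≤ 2 * Real.log N * (A * (2 * y)) := mul_le_mul_of_nonneg_right hnlog (by positivity)
      _ = _ := by ring
  have t3 : ((k - 1 : ℕ) : ℝ) * (Real.pi * (1 * (1 / 2) ^ n) ^ 2) ≤
      4 * Real.pi / (N : ℝ) ^ 2 := by
    have h1 : (1 : ℝ) * (1 / 2) ^ n ≤ 2 / N := by
      rw [one_mul, one_div, inv_pow, le_div_iff₀ hNpos, inv_mul_le_iff₀ (by positivity)]
      rw [pow_succ] at hn2
      exact hn2.le
    calc ((k - 1 : ℕ) : ℝ) * (Real.pi * (1 * (1 / 2) ^ n) ^ 2)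
        ≤ 1 * (Real.pi * (2 / N) ^ 2) := by gcongr
      _ = _ := by
          field_simp
          ring
  rw [t1, add_assoc]
  exact add_le_add le_rfl (add_le_add t2 t3)

/-- The area of the non-hyperbolic parameters. -/
theorem area {k : ℕ} (hk1 : 1 ≤ k) {M : ℝ} (hM1 : 1 ≤ M) :
    ∃ C₁ : ℝ, ∃ n₀ : ℕ, ∀ F : ℂ[X], n₀ ≤ F.natDegree →
      F.derivative.roots.toFinset.card ≤ k →
      (∀ c ∈ F.derivative.roots, ‖c‖ ≤ M) → ‖F.eval 0‖ ≤ M →
      (3 ≤ k → volume {t : ℂ | ‖t‖ ≤ M ∧ ¬ Hyperbolic k (F + C t)} ≤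
        ENNReal.ofReal (C₁ * (Real.log F.natDegree / F.natDegree) ^ ((2 : ℝ) / k))) ∧
      (k ≤ 2 → volume {t : ℂ | ‖t‖ ≤ M ∧ ¬ Hyperbolic k (F + C t)} ≤
        ENNReal.ofReal (C₁ * (Real.log F.natDegree ^ 2 / F.natDegree))) := by
  have hk0 : (0 : ℝ) < k := by exact_mod_cast hk1
  have hk1' : (1 : ℝ) ≤ k := by exact_mod_cast hk1
  set A : ℝ := 48 * k * (10 * M) ^ k with hA
  have hA0 : 0 < A := by positivity
  set E : ℝ := Real.pi * k * (1 + 1024 * k * M ^ 2) with hE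
  have hE0 : 0 < E := by positivity
  set B₁ : ℝ := A * M + k * A * 2 ^ k + 4 * k * Real.pi with hB₁
  have hB₁0 : 0 < B₁ := by positivity
  set B₂ : ℝ := (A * M + 4 * A) * (2 * (k + 10)) + 4 * Real.pi with hB₂
  have hB₂0 : 0 < B₂ := by positivity
  have hlim : Tendsto (fun N : ℕ => 2 * ((k : ℝ) + 10) * (Real.log N / N)) atTop (𝓝 0) := by
    have h1 : Tendsto (fun x : ℝ => Real.log x / x) atTop (𝓝 0) :=
      Real.isLittleO_log_id_atTop.tendsto_div_nhds_zero
    have h2 := (h1.comp tendsto_natCast_atTop_atTop).const_mul (2 * ((k : ℝ) + 10))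
    rw [mul_zero] at h2
    exact h2
  have e1 := hlim.eventually (gt_mem_nhds (by norm_num : (0 : ℝ) < 1))
  obtain ⟨n₀, hn₀⟩ := eventually_atTop.1 ((large_ev k M).and e1)
  refine ⟨k * (B₁ + B₂) * (2 * (k + 10)) + E, n₀, fun F hF hk hM h0 => ?_⟩
  obtain ⟨hL, hy1⟩ := hn₀ _ hF
  have h5 := hL.five
  have hN1 : (1 : ℝ) ≤ F.natDegree := by
    have : 1 ≤ F.natDegree := by omega
    exact_mod_cast this
  have hN5 : (5 : ℝ) ≤ F.natDegree := by exact_mod_cast h5
  have hNpos : (0 : ℝ) < F.natDegree := by linarith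
  have hlog1 : 1 ≤ Real.log F.natDegree := by
    rw [Real.le_log_iff_exp_le hNpos]
    have := Real.exp_one_lt_d9
    linarith
  set ℓ : ℝ := Real.log F.natDegree / F.natDegree with hℓ
  have hℓ0 : 0 < ℓ := by
    have : 0 < Real.log F.natDegree := by linarith
    positivity
  have hℓ1 : ℓ ≤ 1 := by
    have h1 : 1 * ℓ ≤ 2 * ((k : ℝ) + 10) * ℓ := mul_le_mul_of_nonneg_right (by linarith) hℓ0.le
    linarith
  have hℓN : 1 / (F.natDegree : ℝ) ≤ ℓ := by
    rw [hℓ]
    exact div_le_div_of_nonneg_right hlog1 hNpos.le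
  set y : ℝ := 2 * (k + 10) * ℓ with hy
  have hy0 : 0 < y := by positivity
  have hN3 : 1 / (F.natDegree : ℝ) ^ 3 ≤ 1 / (F.natDegree : ℝ) := by
    apply one_div_le_one_div_of_le hNpos
    calc (F.natDegree : ℝ) = (F.natDegree : ℝ) ^ 1 := (pow_one _).symm
      _ ≤ _ := pow_le_pow_right₀ hN1 (by norm_num)
  have hN2 : 1 / (F.natDegree : ℝ) ^ 2 ≤ 1 / (F.natDegree : ℝ) := by
    apply one_div_le_one_div_of_le hNpos
    calc (F.natDegree : ℝ) = (F.natDegree : ℝ) ^ 1 := (pow_one _).symm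
      _ ≤ _ := pow_le_pow_right₀ hN1 (by norm_num)
  have hVk : (critVal F).card ≤ k := (critVal_card F).trans hk
  have hred := reduction F hk1 hM1 hL hM h0 (critVal F) hVk (fun c hc => mem_critVal F hc)
    (r := M) le_rfl
  have hsum : ∀ Q : ℝ, 0 ≤ Q → (∀ v : ℂ, volume (zoneSet F (k + 10) M M v) ≤
      ENNReal.ofReal Q) → volume {t : ℂ | ‖t‖ ≤ M ∧ ¬ Hyperbolic k (F + C t)} ≤
      ENNReal.ofReal (k * Q + E / (F.natDegree : ℝ) ^ 3) := by
    intro Q hQ hz
    refine hred.trans ?_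
    rw [ENNReal.ofReal_add (by positivity) (by positivity)]
    refine add_le_add ?_ le_rfl
    refine (Finset.sum_le_sum (fun v _ => hz v)).trans ?_
    rw [Finset.sum_const, nsmul_eq_mul, ENNReal.ofReal_mul (p := (k : ℝ)) (by positivity),
      ENNReal.ofReal_natCast]
    gcongr
  constructor
  · intro hk3
    obtain ⟨n, hn⟩ := zone_three hk3 hM1 hy0 hy1
    have hz : ∀ v : ℂ, volume (zoneSet F (k + 10) M M v) ≤
        ENNReal.ofReal (B₁ * y ^ ((2 : ℝ) / k)) := by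
      intro v
      exact (zoneSet_le F hk hM1 (by omega) hM (k + 10) one_pos le_rfl v (by linarith) n
        (y_bound (k := k) (by omega))).trans (ENNReal.ofReal_le_ofReal hn)
    refine (hsum _ (by positivity) hz).trans (ENNReal.ofReal_le_ofReal ?_)
    have hk3' : (3 : ℝ) ≤ k := by exact_mod_cast hk3
    have hexp : (2 : ℝ) / k ≤ 1 := by
      rw [div_le_one hk0]; linarith
    have h1 : y ^ ((2 : ℝ) / k) ≤ 2 * (k + 10) * ℓ ^ ((2 : ℝ) / k) := by
      rw [hy, Real.mul_rpow (by positivity) hℓ0.le]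
      apply mul_le_mul_of_nonneg_right _ (by positivity)
      calc (2 * ((k : ℝ) + 10)) ^ ((2 : ℝ) / k) ≤ (2 * ((k : ℝ) + 10)) ^ (1 : ℝ) :=
            Real.rpow_le_rpow_of_exponent_le (by linarith) hexp
        _ = _ := Real.rpow_one _
    have h2 : 1 / (F.natDegree : ℝ) ^ 3 ≤ ℓ ^ ((2 : ℝ) / k) := by
      refine hN3.trans (hℓN.trans ?_)
      calc ℓ = ℓ ^ (1 : ℝ) := (Real.rpow_one _).symm
        _ ≤ _ := Real.rpow_le_rpow_of_exponent_ge hℓ0 hℓ1 hexp
    have h3 : (0 : ℝ) ≤ ℓ ^ ((2 : ℝ) / k) := by positivity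
    calc k * (B₁ * y ^ ((2 : ℝ) / k)) + E / (F.natDegree : ℝ) ^ 3
        = k * B₁ * y ^ ((2 : ℝ) / k) + E * (1 / (F.natDegree : ℝ) ^ 3) := by ring
      _ ≤ k * B₁ * (2 * (k + 10) * ℓ ^ ((2 : ℝ) / k)) + E * ℓ ^ ((2 : ℝ) / k) :=
          add_le_add (mul_le_mul_of_nonneg_left h1 (by positivity))
            (mul_le_mul_of_nonneg_left h2 hE0.le)
      _ ≤ k * (B₁ + B₂) * (2 * (k + 10) * ℓ ^ ((2 : ℝ) / k)) + E * ℓ ^ ((2 : ℝ) / k) := by
          gcongr
          linarith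
      _ = _ := by ring
  · intro hk2
    obtain ⟨n, hn⟩ := zone_two (N := F.natDegree) hk2 hM1 hy0 (by omega)
    set Q : ℝ := A * M * y + A * (4 * Real.log F.natDegree) * y +
        4 * Real.pi / (F.natDegree : ℝ) ^ 2 with hQ
    have hlog0 : 0 ≤ Real.log F.natDegree := by linarith
    have hz : ∀ v : ℂ, volume (zoneSet F (k + 10) M M v) ≤ ENNReal.ofReal Q := by
      intro v
      exact (zoneSet_le F hk hM1 (by omega) hM (k + 10) one_pos le_rfl v (by linarith) n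
        (y_bound (k := k) (by omega))).trans (ENNReal.ofReal_le_ofReal hn)
    refine (hsum _ (by positivity) hz).trans (ENNReal.ofReal_le_ofReal ?_)
    set S : ℝ := Real.log F.natDegree ^ 2 / F.natDegree with hS
    have hS1 : 1 / (F.natDegree : ℝ) ≤ S := by
      rw [hS]
      exact div_le_div_of_nonneg_right (one_le_pow₀ hlog1) hNpos.le
    have hS2 : ℓ ≤ S := by
      rw [hS, hℓ]
      apply div_le_div_of_nonneg_right _ hNpos.le
      nlinarith
    have hS3 : Real.log F.natDegree * ℓ = S := by rw [hS, hℓ]; ring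
    have hS0 : 0 < S := lt_of_lt_of_le (by positivity) hS1
    have h1 : Q ≤ B₂ * S := by
      have q1 : A * M * y ≤ A * M * (2 * (k + 10)) * S := by
        rw [hy]
        calc A * M * (2 * (k + 10) * ℓ) = A * M * (2 * (k + 10)) * ℓ := by ring
          _ ≤ _ := mul_le_mul_of_nonneg_left hS2 (by positivity)
      have q2 : A * (4 * Real.log F.natDegree) * y = 4 * A * (2 * (k + 10)) * S := by
        rw [hy, ← hS3]; ring
      have q3 : 4 * Real.pi / (F.natDegree : ℝ) ^ 2 ≤ 4 * Real.pi * S := by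
        calc 4 * Real.pi / (F.natDegree : ℝ) ^ 2 = 4 * Real.pi * (1 / (F.natDegree : ℝ) ^ 2) := by
              ring
          _ ≤ _ := mul_le_mul_of_nonneg_left (hN2.trans hS1) (by positivity)
      calc Q ≤ A * M * (2 * (k + 10)) * S + 4 * A * (2 * (k + 10)) * S + 4 * Real.pi * S := by
            rw [hQ, q2]
            linarith
        _ = B₂ * S := by rw [hB₂]; ring
    have h2 : E / (F.natDegree : ℝ) ^ 3 ≤ E * S := by
      calc E / (F.natDegree : ℝ) ^ 3 = E * (1 / (F.natDegree : ℝ) ^ 3) := by ring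
        _ ≤ _ := mul_le_mul_of_nonneg_left (hN3.trans hS1) hE0.le
    calc k * Q + E / (F.natDegree : ℝ) ^ 3 ≤ k * (B₂ * S) + E * S :=
          add_le_add (mul_le_mul_of_nonneg_left h1 hk0.le) h2
      _ ≤ k * ((B₁ + B₂) * (2 * (k + 10)) * S) + E * S := by
          have h3 : B₂ * S ≤ (B₁ + B₂) * (2 * (k + 10)) * S := by
            apply mul_le_mul_of_nonneg_right _ hS0.le
            calc B₂ ≤ (B₁ + B₂) * 1 := by linarith
              _ ≤ _ := mul_le_mul_of_nonneg_left (by linarith) (by positivity)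
          have := mul_le_mul_of_nonneg_left h3 hk0.le
          linarith
      _ = _ := by ring

end Pool.Agent.U818.FC
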