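import Mathlib

/-!
# Area of the set on which a polynomial is bounded and its derivative is large
-/

set_option autoImplicit false

open Polynomial MeasureTheory Set Filter Topology

namespace Pool.Agent.U818.FC

lemma det_smulRight (a : ℂ) :
    |((ContinuousLinearMap.smulRight (1 : ℂ →L[ℂ] ℂ) a).restrictScalars ℝ).det| = ‖a‖ ^ 2 := by
  have h1 : ((ContinuousLinearMap.smulRight (1 : ℂ →L[ℂ] ℂ) a).restrictScalars ℝ).det =
      Algebra.norm ℝ a := by
    rw [Algebra.norm_apply, ContinuousLinearMap.det]
    congr 1
    ext <;> simp [mul_comm]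
  rw [h1, Algebra.norm_complex_apply, Complex.normSq_eq_norm_sq, abs_of_nonneg (by positivity)]

lemma locally_injective (q : ℂ[X]) {t : ℂ} (ht : q.derivative.eval t ≠ 0) :
    ∃ V : Set ℂ, IsOpen V ∧ t ∈ V ∧ InjOn (fun z => q.eval z) V := by
  have h : HasStrictDerivAt (fun z => q.eval z) (q.derivative.eval t) t :=
    q.hasStrictDerivAt t
  have h2 := h.hasStrictFDerivAt_equiv ht
  refine ⟨(h2.toOpenPartialHomeomorph _).source,
    (h2.toOpenPartialHomeomorph _).open_source, ?_, ?_⟩
  · exact HasStrictFDerivAt.mem_toOpenPartialHomeomorph_source _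
  · exact (h2.toOpenPartialHomeomorph _).injOn

/-- The set on which `‖q‖ ≤ R` and `‖q'‖ ≥ l` has area at most `n π R² / l²`. -/
theorem area_mult (q : ℂ[X]) (n : ℕ) (hn : q.natDegree ≤ n) {R l : ℝ} (hR : 0 ≤ R) (hl : 0 < l) :
    volume {t : ℂ | ‖q.eval t‖ ≤ R ∧ l ≤ ‖q.derivative.eval t‖} ≤
      ENNReal.ofReal (n * (Real.pi * R ^ 2) / l ^ 2) := by
  set E : Set ℂ := {t : ℂ | ‖q.eval t‖ ≤ R ∧ l ≤ ‖q.derivative.eval t‖} with hE
  have hEm : MeasurableSet E := by
    apply IsClosed.measurableSet
    exact (isClosed_le (q.continuous.norm) continuous_const).inter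
      (isClosed_le continuous_const (q.derivative.continuous.norm))
  by_cases hne : E = ∅
  · rw [hne]; simp
  have hq' : ∀ t ∈ E, q.derivative.eval t ≠ 0 := by
    intro t ht h0
    have := ht.2
    rw [h0, norm_zero] at this
    linarith
  obtain ⟨t₀, ht₀⟩ := Set.nonempty_iff_ne_empty.2 hne
  have hqd : q.derivative ≠ 0 := by
    rintro h
    exact hq' t₀ ht₀ (by rw [h]; simp)
  -- countable cover
  choose! V hVo hVt hVi using fun t (ht : t ∈ E) => locally_injective q (hq' t ht)
  obtain ⟨s, hsE, hsc, hcov⟩ := TopologicalSpace.countable_cover_nhdsWithin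
    (f := V) (s := E) (fun t ht => mem_nhdsWithin_of_mem_nhds ((hVo t ht).mem_nhds (hVt t ht)))
  have hsne : s.Nonempty := by
    rcases s.eq_empty_or_nonempty with h | h
    · subst h
      have : E ⊆ ∅ := by simpa using hcov
      exact absurd (this ht₀) (by simp)
    · exact h
  obtain ⟨f, hf⟩ := hsc.exists_eq_range hsne
  have hfE : ∀ i, f i ∈ E := fun i => hsE (hf ▸ mem_range_self i)
  set W : ℕ → Set ℂ := fun i => E ∩ disjointed (fun j => V (f j)) i with hW
  have hWm : ∀ i, MeasurableSet (W i) := fun i =>
    hEm.inter (MeasurableSet.disjointed (fun j => (hVo _ (hfE j)).measurableSet) i)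
  have hWd : Pairwise (Function.onFun Disjoint W) := fun i j hij =>
    ((disjoint_disjointed (fun j => V (f j))) hij).mono inter_subset_right inter_subset_right
  have hWu : E = ⋃ i, W i := by
    rw [hW, ← inter_iUnion, iUnion_disjointed]
    refine (inter_eq_left.2 ?_).symm
    intro t ht
    obtain ⟨x, hx, hx'⟩ := mem_iUnion₂.1 (hcov ht)
    rw [hf] at hx
    obtain ⟨i, rfl⟩ := hx
    exact mem_iUnion.2 ⟨i, hx'⟩
  have hWi : ∀ i, InjOn (fun z => q.eval z) (W i) := fun i =>
    (hVi _ (hfE i)).mono (fun z hz => disjointed_subset _ _ hz.2)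
  have hder : ∀ i, ∀ x ∈ W i, HasFDerivWithinAt (fun z => q.eval z)
      ((ContinuousLinearMap.smulRight (1 : ℂ →L[ℂ] ℂ) (q.derivative.eval x)).restrictScalars ℝ)
      (W i) x := fun i x _ =>
    ((q.hasDerivAt x).hasFDerivAt.restrictScalars ℝ).hasFDerivWithinAt
  have him : ∀ i, MeasurableSet ((fun z => q.eval z) '' W i) := by
    intro i
    have hc : ContinuousOn (fun z => q.eval z) (W i) := q.continuous.continuousOn
    exact (hWm i).image_of_continuousOn_injOn hc (hWi i)
  have hpiece : ∀ i, ENNReal.ofReal (l ^ 2) * volume (W i) ≤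
      volume ((fun z => q.eval z) '' W i) := by
    intro i
    rw [← lintegral_abs_det_fderiv_eq_addHaar_image volume (hWm i) (hder i) (hWi i)]
    calc ENNReal.ofReal (l ^ 2) * volume (W i) = ∫⁻ _ in W i, ENNReal.ofReal (l ^ 2) := by
          rw [setLIntegral_const]
      _ ≤ _ := by
          refine setLIntegral_mono' (hWm i) (fun x hx => ?_)
          apply ENNReal.ofReal_le_ofReal
          rw [det_smulRight]
          exact pow_le_pow_left₀ hl.le hx.1.2 2
  have hsum : ∑' i, volume ((fun z => q.eval z) '' W i) ≤
      ENNReal.ofReal (n * (Real.pi * R ^ 2)) := by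
    have h1 : ∑' i, volume ((fun z => q.eval z) '' W i) =
        ∫⁻ w, ∑' i, ((fun z => q.eval z) '' W i).indicator 1 w := by
      rw [lintegral_tsum (fun i => (measurable_one.indicator (him i)).aemeasurable)]
      refine tsum_congr (fun i => ?_)
      rw [lintegral_indicator_one (him i)]
    rw [h1]
    have h2 : ∀ w, ∑' i, ((fun z => q.eval z) '' W i).indicator (1 : ℂ → ENNReal) w ≤
        (Metric.closedBall (0 : ℂ) R).indicator (fun _ => (n : ENNReal)) w := by
      intro w
      by_cases hw : w ∈ Metric.closedBall (0 : ℂ) R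
      · rw [indicator_of_mem hw]
        -- count
        rw [ENNReal.tsum_eq_iSup_sum]
        refine iSup_le (fun S => ?_)
        classical
        have hcard : ∑ i ∈ S, ((fun z => q.eval z) '' W i).indicator (1 : ℂ → ENNReal) w =
            ((S.filter (fun i => w ∈ (fun z => q.eval z) '' W i)).card : ENNReal) := by
          rw [Finset.card_filter]
          push_cast
          refine Finset.sum_congr rfl (fun i _ => ?_)
          simp [indicator]
        rw [hcard]
        norm_cast
        -- inject into roots
        set S' := S.filter (fun i => w ∈ (fun z => q.eval z) '' W i) with hS'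
        have hmem : ∀ i ∈ S', ∃ z ∈ W i, q.eval z = w := by
          intro i hi
          obtain ⟨z, hz, hzw⟩ := (Finset.mem_filter.1 hi).2
          exact ⟨z, hz, hzw⟩
        choose! g hg using hmem
        have hdeg : (q - C w).natDegree ≤ n := by
          rw [natDegree_sub_C]; exact hn
        have hne0 : q - C w ≠ 0 := by
          intro h0
          apply hqd
          have : q = C w := sub_eq_zero.1 h0
          rw [this]; simp
        calc S'.card ≤ (q - C w).roots.toFinset.card := by
              refine Finset.card_le_card_of_injOn g (fun i hi => ?_) (fun i hi j hj hij => ?_)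
              · simp only [Finset.mem_coe, Multiset.mem_toFinset]
                rw [mem_roots hne0, IsRoot.def]
                simp [(hg i hi).2]
              · by_contra hne'
                have := hWd hne'
                exact Set.disjoint_left.1 this (hg i hi).1 (by rw [hij]; exact (hg j hj).1)
          _ ≤ Multiset.card (q - C w).roots := Multiset.toFinset_card_le _
          _ ≤ (q - C w).natDegree := card_roots' _
          _ ≤ n := hdeg
      · rw [indicator_of_notMem hw]
        refine le_of_eq ?_
        rw [ENNReal.tsum_eq_zero]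
        intro i
        rw [indicator_of_notMem]
        rintro ⟨z, hz, rfl⟩
        exact hw (by simpa using hz.1.1)
    refine (lintegral_mono h2).trans ?_
    rw [lintegral_indicator Metric.isClosed_closedBall.measurableSet, setLIntegral_const,
      Complex.volume_closedBall]
    rw [ENNReal.ofReal_mul (by positivity), ENNReal.ofReal_mul (by positivity)]
    apply le_of_eq
    rw [ENNReal.ofReal_natCast, ← ENNReal.ofReal_pow hR]
    congr 1
    rw [mul_comm]
    congr 1
    rw [ENNReal.ofReal]
    congr 1
    exact (Real.toNNReal_of_nonneg Real.pi_pos.le).symm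
  have htot : ENNReal.ofReal (l ^ 2) * volume E ≤ ENNReal.ofReal (n * (Real.pi * R ^ 2)) := by
    conv_lhs => rw [hWu]
    rw [measure_iUnion hWd hWm, ← ENNReal.tsum_mul_left]
    exact (ENNReal.tsum_le_tsum hpiece).trans hsum
  have hl2 : (0 : ℝ) < l ^ 2 := by positivity
  rw [ENNReal.ofReal_div_of_pos hl2, ENNReal.le_div_iff_mul_le, mul_comm]
  · exact htot
  · left
    rw [Ne, ENNReal.ofReal_eq_zero, not_le]
    exact hl2
  · left; exact ENNReal.ofReal_ne_top

end Pool.Agent.U818.FC
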