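import Mathlib

/-!
# Preparations: an integral, the size of a polynomial, coverings of connected sets
-/

set_option autoImplicit false

open Polynomial MeasureTheory Set Filter Topology Metric

namespace Pool.Agent.U818.FC

lemma lint_inv (R : ℝ) (hR : 0 ≤ R) :
    ∫⁻ z in closedBall (0 : ℂ) R, ENNReal.ofReal (‖z‖⁻¹) ≤ ENNReal.ofReal (2 * Real.pi * R) := by
  rw [← lintegral_indicator isClosed_closedBall.measurableSet,
    ← Complex.lintegral_comp_polarCoord_symm]
  have h1 : ∀ p ∈ polarCoord.target, ENNReal.ofReal p.1 •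
      (closedBall (0 : ℂ) R).indicator (fun z => ENNReal.ofReal (‖z‖⁻¹))
        (Complex.polarCoord.symm p) ≤
      (Icc 0 R ×ˢ Icc (-Real.pi) Real.pi).indicator (fun _ => (1 : ENNReal)) p := by
    rintro ⟨r, θ⟩ hp
    have hp1 : 0 < r := hp.1
    have hp2 : θ ∈ Ioo (-Real.pi) Real.pi := hp.2
    by_cases h : Complex.polarCoord.symm (r, θ) ∈ closedBall (0 : ℂ) R
    · rw [indicator_of_mem h, Complex.norm_polarCoord_symm]
      have h2 : ‖Complex.polarCoord.symm (r, θ)‖ ≤ R := by simpa using h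
      rw [Complex.norm_polarCoord_symm, abs_of_pos hp1] at h2
      have h3 : ((r, θ) : ℝ × ℝ) ∈ Icc 0 R ×ˢ Icc (-Real.pi) Real.pi :=
        ⟨⟨hp1.le, h2⟩, ⟨hp2.1.le, hp2.2.le⟩⟩
      rw [indicator_of_mem h3]
      simp only [smul_eq_mul]
      rw [← ENNReal.ofReal_mul hp1.le, abs_of_pos hp1, mul_inv_cancel₀ hp1.ne']
      simp
    · rw [indicator_of_notMem h]
      simp
  refine (setLIntegral_mono' polarCoord.open_target.measurableSet h1).trans ?_
  refine (setLIntegral_le_lintegral _ _).trans ?_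
  rw [lintegral_indicator (measurableSet_Icc.prod measurableSet_Icc), setLIntegral_const, one_mul,
    Measure.volume_eq_prod, Measure.prod_prod, Real.volume_Icc, Real.volume_Icc,
    ← ENNReal.ofReal_mul (by simpa using hR)]
  apply le_of_eq
  congr 1
  ring

lemma lint_inv_shift (R : ℝ) (hR : 0 ≤ R) (c : ℂ) (hc : ‖c‖ ≤ R) :
    ∫⁻ z in closedBall (0 : ℂ) R, ENNReal.ofReal (‖z - c‖⁻¹) ≤
      ENNReal.ofReal (4 * Real.pi * R) := by
  have h1 : ∫⁻ z in closedBall (0 : ℂ) R, ENNReal.ofReal (‖z - c‖⁻¹) ≤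
      ∫⁻ z in closedBall c (2 * R), ENNReal.ofReal (‖z - c‖⁻¹) := by
    apply lintegral_mono_set
    intro z hz
    rw [mem_closedBall, dist_eq_norm] at *
    calc ‖z - c‖ ≤ ‖z‖ + ‖c‖ := norm_sub_le _ _
      _ ≤ R + R := add_le_add (by simpa using hz) hc
      _ = 2 * R := by ring
  refine h1.trans ?_
  have h2 : ∫⁻ z in closedBall c (2 * R), ENNReal.ofReal (‖z - c‖⁻¹) =
      ∫⁻ z in closedBall (0 : ℂ) (2 * R), ENNReal.ofReal (‖z‖⁻¹) := by
    rw [← lintegral_indicator isClosed_closedBall.measurableSet,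
      ← lintegral_indicator isClosed_closedBall.measurableSet,
      ← lintegral_add_right_eq_self
        ((closedBall c (2 * R)).indicator fun z => ENNReal.ofReal (‖z - c‖⁻¹)) c]
    refine lintegral_congr (fun z => ?_)
    by_cases h : z ∈ closedBall (0 : ℂ) (2 * R)
    · rw [indicator_of_mem h, indicator_of_mem, add_sub_cancel_right]
      simpa [dist_eq_norm] using h
    · rw [indicator_of_notMem h, indicator_of_notMem]
      simpa [dist_eq_norm] using h
  rw [h2]
  refine (lint_inv (2 * R) (by positivity)).trans (le_of_eq ?_)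
  congr 1
  ring

/-- A preconnected set is covered by a finite set and countably many sets on each of which `F`
moves by at most `d i`: then `F` moves by at most the sum of the `d i`. -/
lemma dist_le_tsum {E : Set ℂ} (hE : IsPreconnected E) {F : ℂ → ℂ} (hF : ContinuousOn F E)
    {ι : Type*} [Countable ι] (B : ι → Set ℂ) (d : ι → ℝ) (Z : Finset ℂ)
    (hcov : E ⊆ ↑Z ∪ ⋃ i, B i)
    (hd : ∀ i, ∀ a ∈ E ∩ B i, ∀ b ∈ E ∩ B i, dist (F a) (F b) ≤ d i)
    {x y : ℂ} (hx : x ∈ E) (hy : y ∈ E) :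
    ENNReal.ofReal (dist (F x) (F y)) ≤ ∑' i, ENNReal.ofReal (d i) := by
  set g : ℂ → ℝ := fun w => dist (F x) (F w) with hg
  have hgc : ContinuousOn g E := fun w hw => Filter.Tendsto.dist tendsto_const_nhds (hF w hw)
  have hpre : IsPreconnected (g '' E) := hE.image g hgc
  have h0 : (0 : ℝ) ∈ g '' E := ⟨x, hx, by simp [hg]⟩
  have h1 : dist (F x) (F y) ∈ g '' E := ⟨y, hy, rfl⟩
  have hsub : Icc (0 : ℝ) (dist (F x) (F y)) ⊆ g '' E := hpre.ordConnected.out h0 h1
  have hsub2 : g '' E ⊆ g '' ↑Z ∪ ⋃ i, g '' (E ∩ B i) := by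
    rintro _ ⟨w, hw, rfl⟩
    rcases hcov hw with h | h
    · exact Or.inl ⟨w, h, rfl⟩
    · obtain ⟨i, hi⟩ := mem_iUnion.1 h
      exact Or.inr (mem_iUnion.2 ⟨i, w, ⟨hw, hi⟩, rfl⟩)
  calc ENNReal.ofReal (dist (F x) (F y)) = volume (Icc (0 : ℝ) (dist (F x) (F y))) := by
        rw [Real.volume_Icc, sub_zero]
    _ ≤ volume (g '' ↑Z ∪ ⋃ i, g '' (E ∩ B i)) := measure_mono (hsub.trans hsub2)
    _ ≤ volume (g '' (Z : Set ℂ)) + volume (⋃ i, g '' (E ∩ B i)) := measure_union_le _ _
    _ = volume (⋃ i, g '' (E ∩ B i)) := by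
        rw [((Z.finite_toSet).image g).measure_zero, zero_add]
    _ ≤ ∑' i, volume (g '' (E ∩ B i)) := measure_iUnion_le _
    _ ≤ ∑' i, ENNReal.ofReal (d i) := by
        refine ENNReal.tsum_le_tsum (fun i => ?_)
        refine (Real.volume_le_diam _).trans ?_
        refine Metric.ediam_le (fun a ha b hb => ?_)
        obtain ⟨a, ha, rfl⟩ := ha
        obtain ⟨b, hb, rfl⟩ := hb
        rw [edist_dist]
        apply ENNReal.ofReal_le_ofReal
        refine le_trans ?_ (hd i a ha b hb)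
        rw [Real.dist_eq]
        have := abs_dist_sub_le (F a) (F b) (F x)
        simpa [hg, dist_comm] using this

lemma norm_eval (p : ℂ[X]) (z : ℂ) :
    ‖p.eval z‖ = ‖p.leadingCoeff‖ * (p.roots.map (fun c => ‖z - c‖)).prod := by
  have h := (IsAlgClosed.splits p).eval_eq_prod_roots z
  rw [h, norm_mul]
  congr 1
  have := map_multiset_prod (normHom : ℂ →*₀ ℝ) (p.roots.map (fun c => z - c))
  rw [Multiset.map_map] at this
  exact this

/-- If all distances to the roots grow by a factor at most `1 + η`, then `‖p‖` grows by at most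
`(1 + η) ^ deg p`. -/
lemma norm_eval_le (p : ℂ[X]) {n : ℕ} (hn : p.natDegree ≤ n) {x z : ℂ} {η : ℝ} (hη : 0 ≤ η)
    (h : ∀ c ∈ p.roots, ‖z - c‖ ≤ (1 + η) * ‖x - c‖) :
    ‖p.eval z‖ ≤ (1 + η) ^ n * ‖p.eval x‖ := by
  rw [norm_eval, norm_eval]
  have h1 : (p.roots.map (fun c => ‖z - c‖)).prod ≤
      (1 + η) ^ (Multiset.card p.roots) * (p.roots.map (fun c => ‖x - c‖)).prod := by
    have : (p.roots.map (fun c => ‖z - c‖)).prod ≤
        (p.roots.map (fun c => (1 + η) * ‖x - c‖)).prod :=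
      Multiset.prod_map_le_prod_map₀ _ _ (fun c _ => norm_nonneg _) h
    refine this.trans (le_of_eq ?_)
    rw [Multiset.prod_map_mul]
    simp
  have h2 : (1 + η) ^ (Multiset.card p.roots) ≤ (1 + η) ^ n :=
    pow_le_pow_right₀ (by linarith) ((card_roots' p).trans hn)
  have h3 : 0 ≤ (p.roots.map (fun c => ‖x - c‖)).prod := by
    apply Multiset.prod_nonneg
    intro a ha
    obtain ⟨c, _, rfl⟩ := Multiset.mem_map.1 ha
    exact norm_nonneg _
  calc ‖p.leadingCoeff‖ * (p.roots.map (fun c => ‖z - c‖)).prod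
      ≤ ‖p.leadingCoeff‖ * ((1 + η) ^ n * (p.roots.map (fun c => ‖x - c‖)).prod) := by
        apply mul_le_mul_of_nonneg_left _ (norm_nonneg _)
        exact h1.trans (mul_le_mul_of_nonneg_right h2 h3)
    _ = _ := by ring

end Pool.Agent.U818.FC
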