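import Pool.Agent.U818.FC.Diam

/-!
# Points with a small derivative are mapped near a critical value
-/

set_option autoImplicit false

open Polynomial MeasureTheory Set Filter Topology Metric

namespace Pool.Agent.U818.FC

/-- Every component of `{‖p‖ < ε}` contains a zero of `p`. -/
theorem exists_zero (p : ℂ[X]) {ε ρ : ℝ} (hε : 0 < ε)
    (hρ : ∀ z : ℂ, ‖p.eval z‖ < ε → ‖z‖ ≤ ρ) {x : ℂ} (hx : ‖p.eval x‖ < ε) :
    ∃ c ∈ connectedComponentIn {z : ℂ | ‖p.eval z‖ < ε} x, p.eval c = 0 := by
  set U : Set ℂ := {z : ℂ | ‖p.eval z‖ < ε} with hU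
  have hUo : IsOpen U := isOpen_lt p.continuous.norm continuous_const
  set Ω := connectedComponentIn U x with hΩ
  have hxU : x ∈ U := hx
  have hΩU : Ω ⊆ U := connectedComponentIn_subset U x
  have hΩo : IsOpen Ω := hUo.connectedComponentIn
  have hxΩ : x ∈ Ω := mem_connectedComponentIn hxU
  by_contra hcon
  push Not at hcon
  have hbd : Bornology.IsBounded Ω := by
    refine (isBounded_closedBall (x := (0 : ℂ)) (r := ρ)).subset (fun z hz => ?_)
    rw [mem_closedBall, dist_zero_right]
    exact hρ z (hΩU hz)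
  have hfront : ∀ w ∈ frontier Ω, ε ≤ ‖p.eval w‖ := by
    intro w hw
    by_contra hlt
    push Not at hlt
    have hwU : w ∈ U := hlt
    have hwc : w ∈ closure Ω := frontier_subset_closure hw
    have hwn : w ∉ Ω := by
      have := hw.2
      rwa [hΩo.interior_eq] at this
    have h1 : IsOpen (connectedComponentIn U w) := hUo.connectedComponentIn
    obtain ⟨v, hv1, hv2⟩ := mem_closure_iff.1 hwc _ h1 (mem_connectedComponentIn hwU)
    have h2 : connectedComponentIn U w = connectedComponentIn U v := connectedComponentIn_eq hv1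
    have h3 : connectedComponentIn U x = connectedComponentIn U v := connectedComponentIn_eq hv2
    apply hwn
    rw [hΩ, h3, ← h2]
    exact mem_connectedComponentIn hwU
  have hne : ∀ w ∈ closure Ω, p.eval w ≠ 0 := by
    intro w hw h0
    rw [closure_eq_self_union_frontier] at hw
    rcases hw with h | h
    · exact hcon w h h0
    · have := hfront w h
      rw [h0, norm_zero] at this
      linarith
  have hd : DiffContOnCl ℂ (fun z => (p.eval z)⁻¹) Ω := by
    refine ⟨fun z hz => ?_, fun z hz => ?_⟩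
    · exact (p.differentiable.differentiableAt.inv (hne z (subset_closure hz))).differentiableWithinAt
    · exact (p.continuous.continuousAt.inv₀ (hne z hz)).continuousWithinAt
  have h1 := Complex.norm_le_of_forall_mem_frontier_norm_le hbd hd (C := ε⁻¹)
    (fun z hz => by
      rw [norm_inv]
      exact inv_anti₀ hε (hfront z hz)) (subset_closure hxΩ)
  rw [norm_inv] at h1
  have h2 : 0 < ‖p.eval x‖ := norm_pos_iff.2 (hne x (subset_closure hxΩ))
  have h3 := inv_le_inv₀ h2 hε |>.1 h1
  exact absurd hx (not_lt.2 h3)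

/-- If `‖F' x‖ < ε` then `F x` is within `1760 ε N² ρ` of a critical value. -/
theorem near_critical_value (F : ℂ[X]) (N : ℕ) (hN : 1 ≤ N) (hdeg : F.derivative.natDegree ≤ N)
    (hne : F.derivative ≠ 0) {ρ : ℝ} (hρ0 : 0 ≤ ρ) {ε : ℝ} (hε : 0 < ε)
    (hρ : ∀ z : ℂ, ‖F.derivative.eval z‖ < ε → ‖z‖ ≤ ρ) {x : ℂ}
    (hx : ‖F.derivative.eval x‖ < ε) :
    ∃ c : ℂ, F.derivative.eval c = 0 ∧ dist (F.eval x) (F.eval c) ≤ 1760 * ε * N ^ 2 * ρ := by
  classical
  obtain ⟨c, hc, hc0⟩ := exists_zero F.derivative hε hρ hx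
  refine ⟨c, hc0, ?_⟩
  have hcr : c ∈ F.derivative.roots := by
    rw [mem_roots hne]
    exact hc0
  refine dist_le F N hN hdeg F.derivative.roots.toFinset
    (fun c hc => Multiset.mem_toFinset.2 hc)
    ((Multiset.toFinset_card_le _).trans ((card_roots' _).trans hdeg))
    ⟨c, Multiset.mem_toFinset.2 hcr⟩
    (isPreconnected_connectedComponentIn (F := {z : ℂ | ‖F.derivative.eval z‖ < ε}) (x := x))
    hρ0 (fun z hz => hρ z
      (connectedComponentIn_subset _ _ hz : z ∈ {z : ℂ | ‖F.derivative.eval z‖ < ε})) ?_ hε.le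
    (fun z hz => le_of_lt
      (connectedComponentIn_subset _ _ hz : z ∈ {z : ℂ | ‖F.derivative.eval z‖ < ε}))
    (mem_connectedComponentIn (F := {z : ℂ | ‖F.derivative.eval z‖ < ε}) hx) hc
  intro c hc
  apply hρ
  have : F.derivative.eval c = 0 := (mem_roots hne).1 (Multiset.mem_toFinset.1 hc)
  rw [this, norm_zero]
  exact hε

end Pool.Agent.U818.FC
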