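import Mathlib

/-!
# A criterion for hyperbolicity of `F + t`
-/

set_option autoImplicit false

open Polynomial MeasureTheory Set Filter Topology Metric

namespace Pool.Agent.U818.FC

/-- The polynomial as a self-map of the plane. -/
def map (T : ℂ[X]) : ℂ → ℂ := fun w : ℂ => T.eval w

/-- The orbit of `z` escapes to infinity. -/
def Escapes (T : ℂ[X]) (z : ℂ) : Prop :=
  Tendsto (fun k : ℕ => ‖(map T)^[k] z‖) atTop atTop

/-- The orbit of `z` is attracted by an attracting periodic point of period at most `K`. -/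
def Attracted (K : ℕ) (T : ℂ[X]) (z : ℂ) : Prop :=
  ∃ n : ℕ, 0 < n ∧ n ≤ K ∧ ∃ x : ℂ, (map T)^[n] x = x ∧ ‖deriv ((map T)^[n]) x‖ < 1 ∧
    Tendsto (fun k : ℕ => (map T)^[n * k] z) atTop (𝓝 x)

/-- Every critical point escapes or is attracted by an attracting cycle of length at most `K`. -/
def Hyperbolic (K : ℕ) (T : ℂ[X]) : Prop :=
  ∀ c : ℂ, (derivative T).eval c = 0 → Escapes T c ∨ Attracted K T c

/-- The `l`-th image of `v + t` under `F + t`, as a polynomial in `t`. -/
noncomputable def Xp (F : ℂ[X]) (v : ℂ) : ℕ → ℂ[X]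
  | 0 => C v + X
  | l + 1 => F.comp (Xp F v l) + X

lemma Xp_eval (F : ℂ[X]) (v t : ℂ) (l : ℕ) :
    (Xp F v l).eval t = (map (F + C t))^[l] (v + t) := by
  induction l with
  | zero => simp [Xp]
  | succ l ih =>
    rw [Function.iterate_succ_apply', ← ih]
    simp [Xp, map]

lemma Xp_deriv (F : ℂ[X]) (v t : ℂ) (l : ℕ) :
    (Xp F v (l + 1)).derivative.eval t =
      F.derivative.eval ((Xp F v l).eval t) * (Xp F v l).derivative.eval t + 1 := by
  simp [Xp, derivative_comp, mul_comm]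

lemma Xp_natDegree (F : ℂ[X]) (v : ℂ) {N : ℕ} (hN : 1 ≤ N) (hF : F.natDegree ≤ N) (l : ℕ) :
    (Xp F v l).natDegree ≤ N ^ l := by
  induction l with
  | zero =>
    simp only [Xp, pow_zero]
    refine (natDegree_add_le _ _).trans ?_
    simp
  | succ l ih =>
    simp only [Xp]
    refine (natDegree_add_le _ _).trans (max_le ?_ ?_)
    · rw [natDegree_comp, pow_succ, mul_comm]
      exact Nat.mul_le_mul ih hF
    · rw [natDegree_X]
      exact Nat.one_le_pow _ _ hN

lemma lip_disc (F : ℂ[X]) {y : ℂ} {δ : ℝ} (hF : ∀ z ∈ closedBall y δ, ‖F.derivative.eval z‖ ≤ 1 / 4)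
    {a b : ℂ} (ha : a ∈ closedBall y δ) (hb : b ∈ closedBall y δ) :
    ‖F.eval a - F.eval b‖ ≤ 1 / 4 * ‖a - b‖ :=
  (convex_closedBall y δ).norm_image_sub_le_of_norm_hasDerivWithin_le
    (f := fun z => F.eval z) (f' := fun z => F.derivative.eval z) (C := 1 / 4)
    (fun z _ => (F.hasDerivAt z).hasDerivWithinAt) hF hb ha

lemma banach (f : ℂ → ℂ) (y : ℂ) {δ δ' q : ℝ} (hδ : 0 < δ) (hδ' : δ' < δ) (hq0 : 0 ≤ q)
    (hq1 : q < 1) (hmap : ∀ z ∈ closedBall y δ, f z ∈ closedBall y δ')
    (hlip : ∀ a ∈ closedBall y δ, ∀ b ∈ closedBall y δ, ‖f a - f b‖ ≤ q * ‖a - b‖) :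
    ∃ x : ℂ, f x = x ∧ ‖deriv f x‖ < 1 ∧
      ∀ z ∈ closedBall y δ, Tendsto (fun k : ℕ => f^[k] z) atTop (𝓝 x) := by
  have hsub : closedBall y δ' ⊆ closedBall y δ := closedBall_subset_closedBall hδ'.le
  have hmaps : MapsTo f (closedBall y δ) (closedBall y δ) := fun z hz => hsub (hmap z hz)
  have hcomp : IsComplete (closedBall y δ) := isClosed_closedBall.isComplete
  have hcontr : ContractingWith ⟨q, hq0⟩ (hmaps.restrict f (closedBall y δ) (closedBall y δ)) := by
    refine ⟨by exact_mod_cast hq1, LipschitzWith.of_dist_le_mul (fun a b => ?_)⟩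
    rw [Subtype.dist_eq, Subtype.dist_eq, dist_eq_norm, dist_eq_norm]
    exact hlip a a.2 b b.2
  have hy : y ∈ closedBall y δ := mem_closedBall_self hδ.le
  obtain ⟨x, hxs, hfx, -, -⟩ := hcontr.exists_fixedPoint' hcomp hmaps hy (edist_ne_top _ _)
  have hfx' : f x = x := hfx
  have hconv : ∀ z ∈ closedBall y δ, Tendsto (fun k : ℕ => f^[k] z) atTop (𝓝 x) := by
    intro z hz
    have h1 : ∀ k : ℕ, f^[k] z ∈ closedBall y δ ∧ ‖f^[k] z - x‖ ≤ q ^ k * ‖z - x‖ := by
      intro k
      induction k with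
      | zero => simpa using hz
      | succ k ih =>
        rw [Function.iterate_succ_apply']
        refine ⟨hmaps ih.1, ?_⟩
        calc ‖f (f^[k] z) - x‖ = ‖f (f^[k] z) - f x‖ := by rw [hfx']
          _ ≤ q * ‖f^[k] z - x‖ := hlip _ ih.1 _ hxs
          _ ≤ q * (q ^ k * ‖z - x‖) := mul_le_mul_of_nonneg_left ih.2 hq0
          _ = _ := by ring
    rw [tendsto_iff_norm_sub_tendsto_zero]
    refine squeeze_zero (fun k => norm_nonneg _) (fun k => (h1 k).2) ?_
    have := (tendsto_pow_atTop_nhds_zero_of_lt_one hq0 hq1).mul_const ‖z - x‖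
    simpa using this
  refine ⟨x, hfx', ?_, hconv⟩
  have hx2 : x ∈ closedBall y δ' := hfx' ▸ hmap x hxs
  have hnhds : closedBall y δ ∈ 𝓝 x := by
    refine mem_of_superset (ball_mem_nhds x (sub_pos.2 hδ')) ?_
    intro z hz
    rw [mem_ball] at hz
    rw [mem_closedBall] at hx2 ⊢
    linarith [dist_triangle z x y]
  refine lt_of_le_of_lt ?_ hq1
  apply norm_deriv_le_of_lip' hq0
  filter_upwards [hnhds] with z hz
  exact hlip z hz x hxs

theorem core (F : ℂ[X]) (V : Finset ℂ) {K : ℕ} (hK : V.card ≤ K) (t : ℂ)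
    (hV : ∀ c : ℂ, F.derivative.eval c = 0 → F.eval c ∈ V)
    {ε B δ R : ℝ} (hδ : 0 < δ) (hR : 0 ≤ R) (hε : 2 * ε ≤ 1 / 4) (hB : 8 ≤ B)
    (H1 : ∀ v ∈ V, ‖F.derivative.eval (v + t)‖ < ε ∨ B < ‖F.derivative.eval (v + t)‖)
    (H2 : ∀ v ∈ V, ∀ w ∈ closedBall (v + t) δ,
      ‖F.derivative.eval w‖ ≤ 2 * ‖F.derivative.eval (v + t)‖ ∧
      ‖F.derivative.eval (v + t)‖ ≤ 2 * ‖F.derivative.eval w‖)
    (H3 : ∀ x : ℂ, ‖F.derivative.eval x‖ < ε → ∃ v ∈ V, dist (F.eval x) v ≤ δ / 4)
    (H5 : ∀ v ∈ V, ∀ l < K, ¬ (‖(Xp F v (l + 1)).eval t‖ ≤ R ∧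
      B / 8 ≤ ‖(Xp F v (l + 1)).derivative.eval t‖))
    (H6 : ∀ w : ℂ, R < ‖w‖ → 2 * ‖w‖ ≤ ‖(F + C t).eval w‖) :
    Hyperbolic K (F + C t) := by
  classical
  intro c hc
  have hc' : F.derivative.eval c = 0 := by simpa using hc
  set f : ℂ → ℂ := map (F + C t) with hf
  have hfe : ∀ z, f z = F.eval z + t := fun z => by simp [hf, map]
  set v := F.eval c with hv
  have hvV : v ∈ V := hV c hc'
  have hfc : f c = v + t := hfe c
  -- the transition map
  have H3' : ∀ v : ℂ, ∃ v' : ℂ, v ∈ V → (v' ∈ V ∧ (‖F.derivative.eval (v + t)‖ < ε →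
      dist (F.eval (v + t)) v' ≤ δ / 4)) := by
    intro v
    by_cases h : ‖F.derivative.eval (v + t)‖ < ε
    · obtain ⟨v', h1, h2⟩ := H3 _ h
      exact ⟨v', fun _ => ⟨h1, fun _ => h2⟩⟩
    · exact ⟨v, fun hv => ⟨hv, fun h' => absurd h' h⟩⟩
  choose τ hτ using H3'
  set s : ℕ → ℂ := fun m => τ^[m] v with hs
  have hs0 : s 0 = v := rfl
  have hsV : ∀ m, s m ∈ V := by
    intro m
    induction m with
    | zero => exact hvV
    | succ m ih =>
      have : s (m + 1) = τ (s m) := Function.iterate_succ_apply' _ _ _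
      rw [this]
      exact (hτ _ ih).1
  have hsucc : ∀ m, s (m + 1) = τ (s m) := fun m => Function.iterate_succ_apply' _ _ _
  -- low steps
  have hlow4 : ∀ v ∈ V, ‖F.derivative.eval (v + t)‖ < ε → ∀ z ∈ closedBall (v + t) δ,
      ‖F.derivative.eval z‖ ≤ 1 / 4 := by
    intro v hv hl z hz
    have := (H2 v hv z hz).1
    linarith
  have hstep : ∀ v ∈ V, ‖F.derivative.eval (v + t)‖ < ε → ∀ z ∈ closedBall (v + t) δ,
      f z ∈ closedBall (τ v + t) (δ / 2) := by
    intro v hv hl z hz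
    have h1 := lip_disc F (hlow4 v hv hl) hz (mem_closedBall_self hδ.le)
    have h2 := (hτ v hv).2 hl
    rw [mem_closedBall, dist_eq_norm] at hz
    rw [dist_eq_norm] at h2
    rw [mem_closedBall, dist_eq_norm, hfe]
    calc ‖F.eval z + t - (τ v + t)‖ = ‖(F.eval z - F.eval (v + t)) + (F.eval (v + t) - τ v)‖ := by
          ring_nf
      _ ≤ ‖F.eval z - F.eval (v + t)‖ + ‖F.eval (v + t) - τ v‖ := norm_add_le _ _
      _ ≤ 1 / 4 * δ + δ / 4 := by
          refine add_le_add (h1.trans ?_) h2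
          exact mul_le_mul_of_nonneg_left hz (by norm_num)
      _ = δ / 2 := by ring
  have hhalf : ∀ y : ℂ, closedBall y (δ / 2) ⊆ closedBall y δ := fun y =>
    closedBall_subset_closedBall (by linarith)
  -- several low steps
  have hmany : ∀ (m j : ℕ), (∀ i < j, ‖F.derivative.eval (s (m + i) + t)‖ < ε) →
      (∀ z ∈ closedBall (s m + t) δ, f^[j] z ∈ closedBall (s (m + j) + t) δ ∧
        (0 < j → f^[j] z ∈ closedBall (s (m + j) + t) (δ / 2))) ∧
      ∀ a ∈ closedBall (s m + t) δ, ∀ b ∈ closedBall (s m + t) δ,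
        ‖f^[j] a - f^[j] b‖ ≤ (1 / 4) ^ j * ‖a - b‖ := by
    intro m j
    induction j with
    | zero =>
      intro _
      refine ⟨fun z hz => ⟨by simpa using hz, fun h => absurd h (lt_irrefl _)⟩, ?_⟩
      intro a _ b _
      simp
    | succ j ih =>
      intro hlow
      obtain ⟨ih1, ih2⟩ := ih (fun i hi => hlow i (by omega))
      have hl := hlow j (Nat.lt_succ_self j)
      refine ⟨fun z hz => ?_, fun a ha b hb => ?_⟩
      · have h1 := hstep _ (hsV (m + j)) hl _ (ih1 z hz).1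
        rw [← Function.iterate_succ_apply' f j z, ← hsucc] at h1
        exact ⟨hhalf _ h1, fun _ => h1⟩
      · rw [Function.iterate_succ_apply', Function.iterate_succ_apply', hfe, hfe]
        have h1 := lip_disc F (hlow4 _ (hsV (m + j)) hl) (ih1 a ha).1 (ih1 b hb).1
        calc ‖F.eval (f^[j] a) + t - (F.eval (f^[j] b) + t)‖ =
              ‖F.eval (f^[j] a) - F.eval (f^[j] b)‖ := by ring_nf
          _ ≤ 1 / 4 * ‖f^[j] a - f^[j] b‖ := h1
          _ ≤ 1 / 4 * ((1 / 4) ^ j * ‖a - b‖) :=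
              mul_le_mul_of_nonneg_left (ih2 a ha b hb) (by norm_num)
          _ = _ := by ring
  -- pigeonhole
  obtain ⟨i, j, hij, hjK, hsij⟩ : ∃ i j : ℕ, i < j ∧ j ≤ K ∧ s i = s j := by
    have h1 : V.card < (Finset.range (K + 1)).card := by
      rw [Finset.card_range]
      omega
    obtain ⟨a, ha, b, hb, hab, hsab⟩ :=
      Finset.exists_ne_map_eq_of_card_lt_of_maps_to h1 (fun m _ => hsV m)
    rw [Finset.mem_range] at ha hb
    rcases lt_or_gt_of_ne hab with h | h
    · exact ⟨a, b, h, by omega, hsab⟩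
    · exact ⟨b, a, h, by omega, hsab.symm⟩
  have hper : ∀ q, s (i + q) = s (j + q) := by
    intro q
    simp only [hs]
    rw [add_comm i q, add_comm j q, Function.iterate_add_apply, Function.iterate_add_apply]
    exact congrArg _ hsij
  by_cases hall : ∀ m, ‖F.derivative.eval (s m + t)‖ < ε
  · -- attracted
    right
    set n := j - i with hn
    have hn0 : 0 < n := by omega
    have hperm : ∀ m, i ≤ m → s (m + n) = s m := by
      intro m hm
      have := hper (m - i)
      rw [show i + (m - i) = m by omega, show j + (m - i) = m + n by omega] at this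
      exact this.symm
    -- choose m with m + 1 = n * (i + 1)
    obtain ⟨m, hm⟩ : ∃ m, m + 1 = n * (i + 1) := by
      refine ⟨n * (i + 1) - 1, ?_⟩
      have : 0 < n * (i + 1) := by positivity
      omega
    have him : i ≤ m := by
      have : i + 1 ≤ n * (i + 1) := Nat.le_mul_of_pos_left _ hn0
      omega
    have hmap : ∀ z ∈ closedBall (s m + t) δ, f^[n] z ∈ closedBall (s m + t) (δ / 2) := by
      intro z hz
      have := ((hmany m n (fun i _ => hall _)).1 z hz).2 hn0
      rwa [hperm m him] at this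
    have hlip := (hmany m n (fun i _ => hall _)).2
    have hq : ((1 : ℝ) / 4) ^ n < 1 := pow_lt_one₀ (by norm_num) (by norm_num) hn0.ne'
    obtain ⟨x, hx1, hx2, hx3⟩ := banach (f^[n]) (s m + t) hδ (half_lt_self hδ)
      (by positivity) hq hmap hlip
    refine ⟨n, hn0, by omega, x, hx1, hx2, ?_⟩
    have hy : f^[n * (i + 1)] c ∈ closedBall (s m + t) δ := by
      rw [← hm, Function.iterate_succ_apply, hfc]
      have := ((hmany 0 m (fun i _ => hall _)).1 (v + t)
        (by rw [hs0]; exact mem_closedBall_self hδ.le)).1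
      rwa [zero_add] at this
    have h1 := hx3 _ hy
    have h2 : (fun k : ℕ => (f^[n])^[k] (f^[n * (i + 1)] c)) =
        fun k : ℕ => f^[n * (k + (i + 1))] c := by
      funext k
      rw [← Function.iterate_mul, ← Function.iterate_add_apply, ← mul_add]
    rw [h2] at h1
    exact (tendsto_add_atTop_iff_nat (f := fun k : ℕ => f^[n * k] c) (i + 1)).1 h1
  · -- escapes
    left
    push Not at hall
    obtain ⟨l, hl1, hl2⟩ : ∃ l, ε ≤ ‖F.derivative.eval (s l + t)‖ ∧
        ∀ m < l, ‖F.derivative.eval (s m + t)‖ < ε :=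
      ⟨Nat.find hall, Nat.find_spec hall, fun m hm => not_le.1 (Nat.find_min hall hm)⟩
    have hlK : l < K := by
      by_contra hcon
      push Not at hcon
      have h1 := hper (l - j)
      rw [show j + (l - j) = l by omega] at h1
      have h2 := hl2 (i + (l - j)) (by omega)
      rw [h1] at h2
      exact absurd h2 (not_lt.2 hl1)
    have hhigh : B < ‖F.derivative.eval (s l + t)‖ := by
      rcases H1 _ (hsV l) with h | h
      · exact absurd h (not_lt.2 hl1)
      · exact h
    have horb : ∀ m ≤ l, f^[m] (v + t) ∈ closedBall (s m + t) δ := by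
      intro m hm
      have := ((hmany 0 m (fun i hi => by rw [zero_add]; exact hl2 i (by omega))).1 (v + t)
        (by rw [hs0]; exact mem_closedBall_self hδ.le)).1
      rwa [zero_add] at this
    have hX : ∀ m, (Xp F v m).eval t = f^[m] (v + t) := fun m => Xp_eval F v t m
    have hder : ∀ m ≤ l, ‖(Xp F v m).derivative.eval t - 1‖ ≤ 1 / 2 := by
      intro m
      induction m with
      | zero => intro _; simp [Xp]
      | succ m ih =>
        intro hm
        have h1 := ih (by omega)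
        rw [Xp_deriv, add_sub_cancel_right, norm_mul, hX]
        have h2 := hlow4 _ (hsV m) (hl2 m (by omega)) _ (horb m (by omega))
        have h3 : ‖(Xp F v m).derivative.eval t‖ ≤ 3 / 2 := by
          calc ‖(Xp F v m).derivative.eval t‖ =
                ‖((Xp F v m).derivative.eval t - 1) + 1‖ := by ring_nf
            _ ≤ ‖(Xp F v m).derivative.eval t - 1‖ + ‖(1 : ℂ)‖ := norm_add_le _ _
            _ ≤ 3 / 2 := by rw [norm_one]; linarith
        calc ‖F.derivative.eval (f^[m] (v + t))‖ * ‖(Xp F v m).derivative.eval t‖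
            ≤ 1 / 4 * (3 / 2) := mul_le_mul h2 h3 (norm_nonneg _) (by norm_num)
          _ ≤ 1 / 2 := by norm_num
    have hdl : 1 / 2 ≤ ‖(Xp F v l).derivative.eval t‖ := by
      have h1 := hder l le_rfl
      have h2 : ‖(1 : ℂ)‖ ≤ ‖(Xp F v l).derivative.eval t - 1‖ +
          ‖(Xp F v l).derivative.eval t‖ := by
        calc ‖(1 : ℂ)‖ = ‖(Xp F v l).derivative.eval t -
              ((Xp F v l).derivative.eval t - 1)‖ := by ring_nf
          _ ≤ _ := by
              rw [add_comm]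
              exact norm_sub_le _ _
      rw [norm_one] at h2
      linarith
    have hbig : B / 8 ≤ ‖(Xp F v (l + 1)).derivative.eval t‖ := by
      rw [Xp_deriv, hX]
      have h1 := (H2 _ (hsV l) _ (horb l le_rfl)).2
      set A := F.derivative.eval (f^[l] (v + t)) with hA
      set D := (Xp F v l).derivative.eval t with hD
      have h2 : B / 2 ≤ ‖A‖ := by linarith
      have h3 : ‖A * D‖ ≤ ‖A * D + 1‖ + 1 := by
        calc ‖A * D‖ = ‖(A * D + 1) - 1‖ := by ring_nf
          _ ≤ ‖A * D + 1‖ + ‖(1 : ℂ)‖ := norm_sub_le _ _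
          _ = _ := by rw [norm_one]
      rw [norm_mul] at h3
      have h4 : B / 2 * (1 / 2) ≤ ‖A‖ * ‖D‖ := mul_le_mul h2 hdl (by norm_num) (norm_nonneg _)
      linarith
    have hRl : R < ‖(Xp F v (l + 1)).eval t‖ := by
      by_contra hcon
      exact H5 v hvV l hlK ⟨not_lt.1 hcon, hbig⟩
    rw [hX] at hRl
    set y := f^[l + 1] (v + t) with hy
    have hgrow : ∀ k : ℕ, R < ‖f^[k] y‖ ∧ 2 ^ k * ‖y‖ ≤ ‖f^[k] y‖ := by
      intro k
      induction k with
      | zero => simpa using hRl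
      | succ k ih =>
        rw [Function.iterate_succ_apply']
        have h1 := H6 _ ih.1
        have h2 : 2 * ‖f^[k] y‖ ≤ ‖f (f^[k] y)‖ := h1
        have h3 : 0 ≤ ‖f^[k] y‖ := norm_nonneg _
        refine ⟨by linarith [ih.1], ?_⟩
        rw [pow_succ]
        linarith [ih.2]
    have hy0 : 0 < ‖y‖ := lt_of_le_of_lt hR hRl
    have h1 : Tendsto (fun k : ℕ => ‖f^[k] y‖) atTop atTop := by
      refine tendsto_atTop_mono (fun k => (hgrow k).2) ?_
      exact (tendsto_pow_atTop_atTop_of_one_lt (by norm_num : (1 : ℝ) < 2)).atTop_mul_const hy0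
    have h2 : (fun k : ℕ => ‖f^[k] y‖) = fun k : ℕ => ‖f^[k + (l + 2)] c‖ := by
      funext k
      rw [Function.iterate_add_apply, show l + 2 = (l + 1) + 1 from rfl,
        Function.iterate_succ_apply f (l + 1) c, hfc]
    rw [h2] at h1
    exact (tendsto_add_atTop_iff_nat (f := fun k : ℕ => ‖f^[k] c‖) (l + 2)).1 h1

end Pool.Agent.U818.FC
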