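import Pool.Agent.U818.FC.Basic

/-!
# A polynomial moves little on a connected set on which its derivative is small
-/

set_option autoImplicit false

open Polynomial MeasureTheory Set Filter Topology Metric

namespace Pool.Agent.U818.FC

lemma one_add_pow_le (N : ℕ) (hN : 1 ≤ N) : (1 + 1 / (2 * (N : ℝ))) ^ N ≤ 2 := by
  have hN' : (0 : ℝ) < N := by exact_mod_cast hN
  calc (1 + 1 / (2 * (N : ℝ))) ^ N ≤ (Real.exp (1 / (2 * (N : ℝ)))) ^ N := by
        apply pow_le_pow_left₀ (by positivity)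
        have := Real.add_one_le_exp (1 / (2 * (N : ℝ)))
        linarith
    _ = Real.exp (1 / 2) := by
        rw [← Real.exp_nat_mul]
        congr 1
        field_simp
    _ ≤ 2 := by
        have h1 : Real.exp (1 / 2) * Real.exp (1 / 2) = Real.exp 1 := by
          rw [← Real.exp_add]; norm_num
        have h2 := Real.exp_one_lt_d9
        nlinarith [Real.exp_pos (1 / 2 : ℝ)]

/-- On a connected set in the disc of radius `ρ` on which `‖F'‖ ≤ ε`, the polynomial `F` moves by at
most `1760 ε N² ρ`. -/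
theorem dist_le (F : ℂ[X]) (N : ℕ) (hN : 1 ≤ N) (hdeg : F.derivative.natDegree ≤ N)
    (Z : Finset ℂ) (hZ : ∀ c ∈ F.derivative.roots, c ∈ Z) (hZc : Z.card ≤ N) (hZn : Z.Nonempty)
    {E : Set ℂ} (hE : IsPreconnected E) {ρ : ℝ} (hρ : 0 ≤ ρ) (hEρ : ∀ z ∈ E, ‖z‖ ≤ ρ)
    (hZρ : ∀ c ∈ Z, ‖c‖ ≤ ρ) {ε : ℝ} (hε0 : 0 ≤ ε) (hε : ∀ z ∈ E, ‖F.derivative.eval z‖ ≤ ε)
    {x y : ℂ} (hx : x ∈ E) (hy : y ∈ E) :
    dist (F.eval x) (F.eval y) ≤ 1760 * ε * N ^ 2 * ρ := by
  classical
  have hN' : (0 : ℝ) < N := by exact_mod_cast hN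
  have hN1 : (1 : ℝ) ≤ N := by exact_mod_cast hN
  set r : ℂ → ℝ := fun z => infDist z (Z : Set ℂ) / (10 * N) with hr
  have hZs : (Z : Set ℂ).Nonempty := hZn
  have hZcpt : IsCompact (Z : Set ℂ) := Z.finite_toSet.isCompact
  have hnear : ∀ z : ℂ, ∃ c ∈ Z, 10 * N * r z = ‖z - c‖ := by
    intro z
    obtain ⟨c, hc, h⟩ := hZcpt.exists_infDist_eq_dist hZs z
    refine ⟨c, hc, ?_⟩
    rw [← dist_eq_norm, ← h, hr]
    field_simp
  have hle : ∀ z : ℂ, ∀ c ∈ Z, 10 * N * r z ≤ ‖z - c‖ := by
    intro z c hc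
    rw [← dist_eq_norm]
    refine le_trans (le_of_eq ?_) (infDist_le_dist_of_mem (s := (Z : Set ℂ)) hc)
    rw [hr]
    field_simp
  have hr0 : ∀ z, 0 ≤ r z := fun z => div_nonneg infDist_nonneg (by positivity)
  have hrpos : ∀ z, z ∉ (Z : Set ℂ) → 0 < r z := by
    intro z hz
    refine div_pos ?_ (by positivity)
    exact (hZcpt.isClosed.notMem_iff_infDist_pos hZs).1 hz
  have hrρ : ∀ z ∈ E, r z ≤ ρ := by
    intro z hz
    obtain ⟨c, hc, h⟩ := hnear z
    have h1 : ‖z - c‖ ≤ 2 * ρ := by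
      calc ‖z - c‖ ≤ ‖z‖ + ‖c‖ := norm_sub_le _ _
        _ ≤ ρ + ρ := add_le_add (hEρ z hz) (hZρ c hc)
        _ = 2 * ρ := by ring
    have h2 : 10 * r z ≤ 10 * N * r z := by nlinarith [hr0 z]
    have := hr0 z
    linarith
  obtain ⟨u, huT, hud, hucov⟩ := Vitali.exists_disjoint_subfamily_covering_enlargement_closedBall
    (E \ Z) (fun z : ℂ => z) r ρ (fun a ha => hrρ a ha.1) 5 (by norm_num)
  have hupos : ∀ a ∈ u, 0 < r a := fun a ha => hrpos a (huT ha).2
  have hucount : u.Countable := by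
    refine hud.countable_of_nonempty_interior (fun a ha => ?_)
    have : ball a (r a) ⊆ interior (closedBall a (r a)) := ball_subset_interior_closedBall
    exact (nonempty_ball.2 (hupos a ha)).mono this
  have : Countable u := hucount.to_subtype
  -- the main covering estimate
  have hkey : ENNReal.ofReal (dist (F.eval x) (F.eval y)) ≤
      ∑' a : u, ENNReal.ofReal (20 * ε * r a) := by
    refine dist_le_tsum hE (F := fun z => F.eval z) F.continuous.continuousOn
      (fun a : u => closedBall (a : ℂ) (5 * r a)) (fun a : u => 20 * ε * r a) Z ?_ ?_ hx hy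
    · intro z hz
      by_cases hzZ : z ∈ (Z : Set ℂ)
      · exact Or.inl hzZ
      · right
        obtain ⟨b, hb, hsub⟩ := hucov z ⟨hz, hzZ⟩
        exact mem_iUnion.2 ⟨⟨b, hb⟩, hsub (mem_closedBall_self (hr0 z))⟩
    · rintro ⟨a, ha⟩ p hp q hq
      have haE : a ∈ E := (huT ha).1
      have hbound : ∀ z ∈ closedBall a (5 * r a), ‖F.derivative.eval z‖ ≤ 2 * ε := by
        intro z hz
        have h1 : ∀ c ∈ F.derivative.roots, ‖z - c‖ ≤ (1 + 1 / (2 * (N : ℝ))) * ‖a - c‖ := by
          intro c hc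
          have h2 : ‖z - a‖ ≤ 5 * r a := by rwa [mem_closedBall, dist_eq_norm] at hz
          have h3 := hle a c (hZ c hc)
          calc ‖z - c‖ = ‖(z - a) + (a - c)‖ := by ring_nf
            _ ≤ ‖z - a‖ + ‖a - c‖ := norm_add_le _ _
            _ ≤ 5 * r a + ‖a - c‖ := by linarith
            _ ≤ 1 / (2 * (N : ℝ)) * ‖a - c‖ + ‖a - c‖ := by
                have : 5 * r a = 1 / (2 * (N : ℝ)) * (10 * N * r a) := by
                  field_simp
                  ring
                rw [this]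
                have h5 : (0 : ℝ) ≤ 1 / (2 * (N : ℝ)) := by positivity
                nlinarith
            _ = _ := by ring
        refine (norm_eval_le _ hdeg (by positivity) h1).trans ?_
        have h4 := one_add_pow_le N hN
        have h5 := hε a haE
        exact mul_le_mul h4 h5 (norm_nonneg _) (by norm_num)
      have hlip := (convex_closedBall a (5 * r a)).norm_image_sub_le_of_norm_hasDerivWithin_le
        (f := fun z => F.eval z) (f' := fun z => F.derivative.eval z) (C := 2 * ε)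
        (fun z _ => (F.hasDerivAt z).hasDerivWithinAt) hbound hq.2 hp.2
      have hpq : ‖p - q‖ ≤ 10 * r a := by
        have h1 : dist p a ≤ 5 * r a := hp.2
        have h2 : dist q a ≤ 5 * r a := hq.2
        rw [← dist_eq_norm]
        calc dist p q ≤ dist p a + dist q a := dist_triangle_right _ _ _
          _ ≤ 10 * r a := by linarith
      rw [dist_eq_norm]
      refine hlip.trans ?_
      calc 2 * ε * ‖p - q‖ ≤ 2 * ε * (10 * r a) :=
            mul_le_mul_of_nonneg_left hpq (by positivity)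
        _ = 20 * ε * r a := by ring
  -- the sum of the radii
  set φ : ℂ → ENNReal := fun z => ∑ c ∈ Z, ENNReal.ofReal (‖z - c‖⁻¹) with hφ
  have hball : ∀ a ∈ u, ENNReal.ofReal (r a) ≤
      ENNReal.ofReal (11 * N / Real.pi) * ∫⁻ z in closedBall a (r a), φ z := by
    intro a ha
    have hra := hupos a ha
    obtain ⟨c, hc, hcr⟩ := hnear a
    have h1 : ∀ z ∈ closedBall a (r a), ENNReal.ofReal ((11 * N * r a)⁻¹) ≤ φ z := by
      intro z hz
      have h2 : ‖z - a‖ ≤ r a := by rwa [mem_closedBall, dist_eq_norm] at hz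
      have h3 : ‖z - c‖ ≤ 11 * N * r a := by
        calc ‖z - c‖ = ‖(z - a) + (a - c)‖ := by ring_nf
          _ ≤ ‖z - a‖ + ‖a - c‖ := norm_add_le _ _
          _ ≤ r a + 10 * N * r a := by linarith
          _ ≤ 11 * N * r a := by nlinarith
      have h4 : 0 < ‖z - c‖ := by
        have : ‖a - c‖ ≤ ‖z - a‖ + ‖z - c‖ := by
          calc ‖a - c‖ = ‖(z - c) - (z - a)‖ := by ring_nf
            _ ≤ ‖z - c‖ + ‖z - a‖ := norm_sub_le _ _
            _ = _ := by ring
        have h5 : 10 * r a ≤ 10 * N * r a := by nlinarith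
        linarith
      calc ENNReal.ofReal ((11 * N * r a)⁻¹) ≤ ENNReal.ofReal (‖z - c‖⁻¹) := by
            apply ENNReal.ofReal_le_ofReal
            exact inv_anti₀ h4 h3
        _ ≤ φ z := Finset.single_le_sum (f := fun c => ENNReal.ofReal (‖z - c‖⁻¹))
            (fun _ _ => zero_le) hc
    have h2 : ENNReal.ofReal ((11 * N * r a)⁻¹) * volume (closedBall a (r a)) ≤
        ∫⁻ z in closedBall a (r a), φ z := by
      rw [← setLIntegral_const]
      exact setLIntegral_mono' isClosed_closedBall.measurableSet h1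
    have h3 : volume (closedBall a (r a)) = ENNReal.ofReal (Real.pi * r a ^ 2) := by
      rw [Complex.volume_closedBall, mul_comm (Real.pi) _, ENNReal.ofReal_mul (by positivity),
        ENNReal.ofReal_pow hra.le]
      congr 1
      rw [ENNReal.ofReal]
      congr 1
      exact (Real.toNNReal_of_nonneg Real.pi_pos.le).symm
    rw [h3, ← ENNReal.ofReal_mul (by positivity)] at h2
    calc ENNReal.ofReal (r a) = ENNReal.ofReal (11 * N / Real.pi) *
          ENNReal.ofReal ((11 * N * r a)⁻¹ * (Real.pi * r a ^ 2)) := by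
          rw [← ENNReal.ofReal_mul (by positivity)]
          congr 1
          field_simp
      _ ≤ _ := mul_le_mul_right h2 _
  have hsub : ∀ a ∈ u, closedBall a (r a) ⊆ closedBall (0 : ℂ) (2 * ρ) := by
    intro a ha z hz
    have h1 : ‖z - a‖ ≤ r a := by rwa [mem_closedBall, dist_eq_norm] at hz
    rw [mem_closedBall, dist_zero_right]
    calc ‖z‖ = ‖(z - a) + a‖ := by ring_nf
      _ ≤ ‖z - a‖ + ‖a‖ := norm_add_le _ _
      _ ≤ ρ + ρ := add_le_add (h1.trans (hrρ a (huT ha).1)) (hEρ a (huT ha).1)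
      _ = 2 * ρ := by ring
  have hφint : ∫⁻ z in closedBall (0 : ℂ) (2 * ρ), φ z ≤
      ENNReal.ofReal (N * (4 * Real.pi * (2 * ρ))) := by
    rw [hφ, lintegral_finsetSum _ (fun c _ => by fun_prop)]
    calc ∑ c ∈ Z, ∫⁻ z in closedBall (0 : ℂ) (2 * ρ), ENNReal.ofReal (‖z - c‖⁻¹)
        ≤ ∑ _c ∈ Z, ENNReal.ofReal (4 * Real.pi * (2 * ρ)) := by
          refine Finset.sum_le_sum (fun c hc => ?_)
          exact lint_inv_shift (2 * ρ) (by positivity) c ((hZρ c hc).trans (by linarith))
      _ = (Z.card : ENNReal) * ENNReal.ofReal (4 * Real.pi * (2 * ρ)) := by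
          rw [Finset.sum_const, nsmul_eq_mul]
      _ ≤ (N : ENNReal) * ENNReal.ofReal (4 * Real.pi * (2 * ρ)) := by
          gcongr
      _ = _ := by
          rw [ENNReal.ofReal_mul (p := (N : ℝ)) (by positivity), ENNReal.ofReal_natCast]
  have hsum : ∑' a : u, ENNReal.ofReal (r a) ≤ ENNReal.ofReal (88 * N ^ 2 * ρ) := by
    calc ∑' a : u, ENNReal.ofReal (r a)
        ≤ ∑' a : u, ENNReal.ofReal (11 * N / Real.pi) *
            ∫⁻ z in closedBall (a : ℂ) (r a), φ z :=
          ENNReal.tsum_le_tsum (fun a => hball a a.2)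
      _ = ENNReal.ofReal (11 * N / Real.pi) *
            ∫⁻ z in ⋃ a : u, closedBall (a : ℂ) (r a), φ z := by
          rw [ENNReal.tsum_mul_left, lintegral_iUnion
            (fun a => isClosed_closedBall.measurableSet)]
          intro a b hab
          exact hud a.2 b.2 (fun h => hab (Subtype.ext h))
      _ ≤ ENNReal.ofReal (11 * N / Real.pi) * ∫⁻ z in closedBall (0 : ℂ) (2 * ρ), φ z := by
          gcongr
          exact iUnion_subset (fun a => hsub a a.2)
      _ ≤ ENNReal.ofReal (11 * N / Real.pi) * ENNReal.ofReal (N * (4 * Real.pi * (2 * ρ))) := by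
          gcongr
      _ = _ := by
          rw [← ENNReal.ofReal_mul (by positivity)]
          congr 1
          field_simp
          ring
  have hfin : ENNReal.ofReal (dist (F.eval x) (F.eval y)) ≤
      ENNReal.ofReal (1760 * ε * N ^ 2 * ρ) := by
    refine hkey.trans ?_
    calc ∑' a : u, ENNReal.ofReal (20 * ε * r a)
        = ∑' a : u, ENNReal.ofReal (20 * ε) * ENNReal.ofReal (r a) := by
          refine tsum_congr (fun a => ?_)
          rw [ENNReal.ofReal_mul (by positivity)]
      _ = ENNReal.ofReal (20 * ε) * ∑' a : u, ENNReal.ofReal (r a) := ENNReal.tsum_mul_left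
      _ ≤ ENNReal.ofReal (20 * ε) * ENNReal.ofReal (88 * N ^ 2 * ρ) := by gcongr
      _ = _ := by
          rw [← ENNReal.ofReal_mul (by positivity)]
          congr 1
          ring
  exact (ENNReal.ofReal_le_ofReal_iff (by positivity)).1 hfin

end Pool.Agent.U818.FC
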