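import Pool.Agent.U818.FC.Basic
import Pool.Agent.U818.FC.Core

/-!
# The size of `F'`, small polynomials and the escape radius
-/

set_option autoImplicit false

open Polynomial MeasureTheory Set Filter Topology Metric

namespace Pool.Agent.U818.FC

lemma deriv_norm (F : ℂ[X]) (z : ℂ) :
    ‖F.derivative.eval z‖ = F.natDegree * ‖F.leadingCoeff‖ *
      (F.derivative.roots.map (fun c => ‖z - c‖)).prod := by
  rw [norm_eval, leadingCoeff_derivative, norm_mul, Complex.norm_natCast]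
  ring

lemma card_roots_deriv (F : ℂ[X]) : Multiset.card F.derivative.roots = F.natDegree - 1 := by
  rw [splits_iff_card_roots.1 (IsAlgClosed.splits F.derivative), natDegree_derivative]

lemma deriv_upper (F : ℂ[X]) {M r : ℝ}
    (hM : ∀ c ∈ F.derivative.roots, ‖c‖ ≤ M) {z : ℂ} (hz : ‖z‖ ≤ r) :
    ‖F.derivative.eval z‖ ≤ F.natDegree * ‖F.leadingCoeff‖ * (r + M) ^ (F.natDegree - 1) := by
  rw [deriv_norm F, ← card_roots_deriv]
  apply mul_le_mul_of_nonneg_left _ (by positivity)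
  calc (F.derivative.roots.map (fun c => ‖z - c‖)).prod
      ≤ (F.derivative.roots.map (fun _ => r + M)).prod := by
        refine Multiset.prod_map_le_prod_map₀ _ _ (fun c _ => norm_nonneg _) (fun c hc => ?_)
        exact (norm_sub_le _ _).trans (add_le_add hz (hM c hc))
    _ = _ := by simp

lemma deriv_lower (F : ℂ[X]) {M r : ℝ} (hr : 0 ≤ r - M)
    (hM : ∀ c ∈ F.derivative.roots, ‖c‖ ≤ M) {z : ℂ} (hz : r ≤ ‖z‖) :
    F.natDegree * ‖F.leadingCoeff‖ * (r - M) ^ (F.natDegree - 1) ≤ ‖F.derivative.eval z‖ := by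
  rw [deriv_norm F, ← card_roots_deriv]
  apply mul_le_mul_of_nonneg_left _ (by positivity)
  calc (r - M) ^ (Multiset.card F.derivative.roots) =
        (F.derivative.roots.map (fun _ => r - M)).prod := by simp
    _ ≤ (F.derivative.roots.map (fun c => ‖z - c‖)).prod := by
        refine Multiset.prod_map_le_prod_map₀ _ _ (fun c _ => hr) (fun c hc => ?_)
        have h1 : ‖z‖ - ‖c‖ ≤ ‖z - c‖ := norm_sub_norm_le z c
        linarith [hM c hc]

/-- A small polynomial maps a disc into itself. -/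
theorem tiny (F : ℂ[X]) (hN : 1 ≤ F.natDegree) {M : ℝ} (hM1 : 1 ≤ M)
    (hM : ∀ c ∈ F.derivative.roots, ‖c‖ ≤ M) (h0 : ‖F.eval 0‖ ≤ M)
    (hsmall : F.natDegree * ‖F.leadingCoeff‖ * (4 * M) ^ (F.natDegree - 1) ≤ 1 / 4)
    {K : ℕ} (hK : 1 ≤ K) {t : ℂ} (ht : ‖t‖ ≤ M) : Hyperbolic K (F + C t) := by
  have hF' : ∀ z ∈ closedBall (0 : ℂ) (3 * M), ‖F.derivative.eval z‖ ≤ 1 / 4 := by
    intro z hz
    rw [mem_closedBall, dist_zero_right] at hz
    have := deriv_upper F hM hz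
    rw [show 3 * M + M = 4 * M by ring] at this
    exact this.trans hsmall
  -- the ball of radius 3 M is mapped into itself; use a slightly different disc for `banach`
  have hlip : ∀ a ∈ closedBall (0 : ℂ) (3 * M), ∀ b ∈ closedBall (0 : ℂ) (3 * M),
      ‖map (F + C t) a - map (F + C t) b‖ ≤ 1 / 4 * ‖a - b‖ := by
    intro a ha b hb
    have h1 := lip_disc F hF' ha hb
    simp only [map, eval_add, eval_C]
    calc ‖F.eval a + t - (F.eval b + t)‖ = ‖F.eval a - F.eval b‖ := by ring_nf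
      _ ≤ _ := h1
  have h0mem : (0 : ℂ) ∈ closedBall (0 : ℂ) (3 * M) := mem_closedBall_self (by linarith)
  have hmap : ∀ z ∈ closedBall (0 : ℂ) (3 * M),
      map (F + C t) z ∈ closedBall (0 : ℂ) (11 / 4 * M) := by
    intro z hz
    have h1 := lip_disc F hF' hz h0mem
    rw [mem_closedBall, dist_zero_right] at hz ⊢
    rw [sub_zero] at h1
    simp only [map, eval_add, eval_C]
    calc ‖F.eval z + t‖ = ‖(F.eval z - F.eval 0) + F.eval 0 + t‖ := by ring_nf
      _ ≤ ‖F.eval z - F.eval 0‖ + ‖F.eval 0‖ + ‖t‖ := norm_add₃_le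
      _ ≤ 1 / 4 * (3 * M) + M + M := by
          refine add_le_add (add_le_add (h1.trans ?_) h0) ht
          exact mul_le_mul_of_nonneg_left hz (by norm_num)
      _ = 11 / 4 * M := by ring
  obtain ⟨x, hx1, hx2, hx3⟩ := banach (map (F + C t)) 0 (δ := 3 * M) (δ' := 11 / 4 * M)
    (q := 1 / 4) (by linarith) (by linarith) (by norm_num) (by norm_num) hmap hlip
  intro c hc
  right
  refine ⟨1, one_pos, hK, x, ?_, ?_, ?_⟩
  · rw [Function.iterate_one]; exact hx1
  · rw [Function.iterate_one]; exact hx2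
  · simp only [one_mul]
    apply hx3
    rw [mem_closedBall, dist_zero_right]
    have hc' : F.derivative.eval c = 0 := by simpa using hc
    have hne : F.derivative ≠ 0 := derivative_ne_zero.2 (by omega)
    exact (hM c ((mem_roots hne).2 hc')).trans (by linarith)

lemma coeff_bound (F : ℂ[X]) {M : ℝ} (hM : ∀ c ∈ F.derivative.roots, ‖c‖ ≤ M) {i : ℕ}
    (hi : i + 1 ≤ F.natDegree) :
    ‖F.coeff (i + 1)‖ ≤ ‖F.leadingCoeff‖ * (M ^ (F.natDegree - (i + 1)) *
      F.natDegree.choose (i + 1)) := by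
  set Q : ℂ[X] := (F.derivative.roots.map (fun c => X - C c)).prod with hQ
  have hfac : F.derivative = C F.derivative.leadingCoeff * Q :=
    (IsAlgClosed.splits F.derivative).eq_prod_roots
  have hQm : Q.Monic := monic_multiset_prod_of_monic _ _ (fun c _ => monic_X_sub_C c)
  have hQd : Q.natDegree = F.natDegree - 1 := by
    rw [hQ, natDegree_multiset_prod_X_sub_C_eq_card, card_roots_deriv]
  have hQr : Q.roots = F.derivative.roots := by
    rw [hQ, roots_multiset_prod_X_sub_C]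
  have h1 := coeff_le_of_roots_le (p := Q) (f := RingHom.id ℂ) (B := M) i hQm
    (by rw [Polynomial.map_id]; exact IsAlgClosed.splits Q)
    (by rw [Polynomial.map_id, hQr]; exact hM)
  rw [Polynomial.map_id, hQd] at h1
  have h2 : F.coeff (i + 1) * ((i : ℂ) + 1) = F.leadingCoeff * F.natDegree * Q.coeff i := by
    rw [← coeff_derivative, ← leadingCoeff_derivative, ← coeff_C_mul, ← hfac]
  have h3 : ‖F.coeff (i + 1)‖ * ((i : ℝ) + 1) = ‖F.leadingCoeff‖ * F.natDegree * ‖Q.coeff i‖ := by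
    have h4 : ‖(i : ℂ) + 1‖ = (i : ℝ) + 1 := by
      have : ((i + 1 : ℕ) : ℂ) = (i : ℂ) + 1 := by push_cast; ring
      rw [← this, Complex.norm_natCast]
      push_cast
      ring
    rw [← h4, ← norm_mul, h2, norm_mul, norm_mul, Complex.norm_natCast]
  have h5 : (F.natDegree : ℝ) * ((F.natDegree - 1).choose i : ℝ) =
      (F.natDegree.choose (i + 1) : ℝ) * ((i : ℝ) + 1) := by
    have := Nat.add_one_mul_choose_eq (F.natDegree - 1) i
    rw [show F.natDegree - 1 + 1 = F.natDegree by omega] at this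
    exact_mod_cast this
  have h6 : F.natDegree - (i + 1) = F.natDegree - 1 - i := by omega
  have h7 : (0 : ℝ) < (i : ℝ) + 1 := by positivity
  refine le_of_mul_le_mul_right ?_ h7
  rw [h3, h6]
  calc ‖F.leadingCoeff‖ * F.natDegree * ‖Q.coeff i‖
      ≤ ‖F.leadingCoeff‖ * F.natDegree *
          (M ^ (F.natDegree - 1 - i) * ((F.natDegree - 1).choose i)) :=
        mul_le_mul_of_nonneg_left h1 (by positivity)
    _ = ‖F.leadingCoeff‖ * M ^ (F.natDegree - 1 - i) *
          (F.natDegree * ((F.natDegree - 1).choose i)) := by ring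
    _ = _ := by rw [h5]; ring

lemma main_term (F : ℂ[X]) (hN : 1 ≤ F.natDegree) {M : ℝ} (hM0 : 0 ≤ M)
    (hM : ∀ c ∈ F.derivative.roots, ‖c‖ ≤ M) (w : ℂ) :
    ‖F.eval w - F.eval 0 - F.leadingCoeff * w ^ F.natDegree‖ ≤
      ‖F.leadingCoeff‖ * ((‖w‖ + M) ^ F.natDegree - ‖w‖ ^ F.natDegree) := by
  obtain ⟨n, hn⟩ : ∃ n, F.natDegree = n + 1 := ⟨F.natDegree - 1, by omega⟩
  have h1 : F.eval w = F.eval 0 + ∑ i ∈ Finset.range n, F.coeff (i + 1) * w ^ (i + 1) +
      F.leadingCoeff * w ^ F.natDegree := by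
    rw [eval_eq_sum_range, Finset.sum_range_succ, hn, Finset.sum_range_succ', leadingCoeff, hn]
    rw [← coeff_zero_eq_eval_zero]
    simp only [pow_zero, mul_one]
    ring
  have h2 : F.eval w - F.eval 0 - F.leadingCoeff * w ^ F.natDegree =
      ∑ i ∈ Finset.range n, F.coeff (i + 1) * w ^ (i + 1) := by
    rw [h1]; ring
  have h3 : (‖w‖ + M) ^ F.natDegree - ‖w‖ ^ F.natDegree =
      ∑ i ∈ Finset.range n, ‖w‖ ^ (i + 1) * M ^ (F.natDegree - (i + 1)) *
        F.natDegree.choose (i + 1) + M ^ F.natDegree := by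
    rw [add_pow, Finset.sum_range_succ, hn, Finset.sum_range_succ']
    simp
  rw [h2, h3]
  calc ‖∑ i ∈ Finset.range n, F.coeff (i + 1) * w ^ (i + 1)‖
      ≤ ∑ i ∈ Finset.range n, ‖F.coeff (i + 1) * w ^ (i + 1)‖ := norm_sum_le _ _
    _ ≤ ∑ i ∈ Finset.range n, ‖F.leadingCoeff‖ * (‖w‖ ^ (i + 1) *
          M ^ (F.natDegree - (i + 1)) * F.natDegree.choose (i + 1)) := by
        refine Finset.sum_le_sum (fun i hi => ?_)
        rw [Finset.mem_range] at hi
        rw [norm_mul, norm_pow]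
        have h4 := coeff_bound F hM (i := i) (by omega)
        calc ‖F.coeff (i + 1)‖ * ‖w‖ ^ (i + 1)
            ≤ ‖F.leadingCoeff‖ * (M ^ (F.natDegree - (i + 1)) *
                F.natDegree.choose (i + 1)) * ‖w‖ ^ (i + 1) :=
              mul_le_mul_of_nonneg_right h4 (by positivity)
          _ = _ := by ring
    _ = ‖F.leadingCoeff‖ * ∑ i ∈ Finset.range n, (‖w‖ ^ (i + 1) *
          M ^ (F.natDegree - (i + 1)) * F.natDegree.choose (i + 1)) := by
        rw [Finset.mul_sum]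
    _ ≤ _ := by
        apply mul_le_mul_of_nonneg_left _ (norm_nonneg _)
        linarith [pow_nonneg hM0 F.natDegree]

/-- The escape radius. -/
theorem escape (F : ℂ[X]) (hN : 5 ≤ F.natDegree) {M : ℝ} (hM1 : 1 ≤ M)
    (hM : ∀ c ∈ F.derivative.roots, ‖c‖ ≤ M) (h0 : ‖F.eval 0‖ ≤ M)
    (hbig : 1 / 4 < F.natDegree * ‖F.leadingCoeff‖ * (4 * M) ^ (F.natDegree - 1))
    {t : ℂ} (ht : ‖t‖ ≤ M) {w : ℂ} (hw : 4 * F.natDegree * M < ‖w‖) :
    2 * ‖w‖ ≤ ‖(F + C t).eval w‖ := by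
  have h1 := main_term F (by omega) (by linarith) hM w
  obtain ⟨N, hNN⟩ : ∃ N, F.natDegree = N := ⟨_, rfl⟩
  rw [hNN] at h1 hN hbig hw
  have hN' : (5 : ℝ) ≤ N := by exact_mod_cast hN
  have hNpos : (0 : ℝ) < N := by linarith
  have hMpos : 0 < M := by linarith
  have hwpos : 0 < ‖w‖ := by
    have : 0 < 4 * (N : ℝ) * M := by positivity
    linarith
  -- `(|w| + M)^N ≤ (4/3) |w|^N`
  have h2 : (‖w‖ + M) ^ N ≤ 4 / 3 * ‖w‖ ^ N := by
    have h3 : ‖w‖ + M ≤ (1 + 1 / (4 * N)) * ‖w‖ := by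
      have : M ≤ 1 / (4 * N) * ‖w‖ := by
        rw [div_mul_eq_mul_div, one_mul, le_div_iff₀ (by positivity)]
        linarith
      linarith
    calc (‖w‖ + M) ^ N ≤ ((1 + 1 / (4 * N)) * ‖w‖) ^ N :=
          pow_le_pow_left₀ (by positivity) h3 N
      _ = (1 + 1 / (4 * N)) ^ N * ‖w‖ ^ N := mul_pow _ _ _
      _ ≤ 4 / 3 * ‖w‖ ^ N := by
          apply mul_le_mul_of_nonneg_right _ (by positivity)
          calc (1 + 1 / (4 * (N : ℝ))) ^ N ≤ (Real.exp (1 / (4 * (N : ℝ)))) ^ N := by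
                apply pow_le_pow_left₀ (by positivity)
                have := Real.add_one_le_exp (1 / (4 * (N : ℝ)))
                linarith
            _ = Real.exp (1 / 4) := by
                rw [← Real.exp_nat_mul]
                congr 1
                field_simp
            _ ≤ 4 / 3 := by
                have h5 : Real.exp (1 / 4) * Real.exp (1 / 4) * (Real.exp (1 / 4) *
                    Real.exp (1 / 4)) = Real.exp 1 := by
                  rw [← Real.exp_add, ← Real.exp_add]; norm_num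
                have h6 := Real.exp_one_lt_d9
                by_contra hcon
                push Not at hcon
                have h7 : (4 / 3 : ℝ) * (4 / 3) ≤ Real.exp (1 / 4) * Real.exp (1 / 4) :=
                  mul_le_mul hcon.le hcon.le (by norm_num) (by positivity)
                have h8 : (4 / 3 : ℝ) * (4 / 3) * (4 / 3 * (4 / 3)) ≤
                    Real.exp (1 / 4) * Real.exp (1 / 4) *
                    (Real.exp (1 / 4) * Real.exp (1 / 4)) :=
                  mul_le_mul h7 h7 (by norm_num) (by positivity)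
                rw [h5] at h8
                norm_num at h8
                linarith
  -- lower bound for `|a| |w|^N`
  obtain ⟨n, hn⟩ : ∃ n, N = n + 1 := ⟨N - 1, by omega⟩
  have h3 : 3 * N * ‖w‖ ≤ ‖F.leadingCoeff‖ * ‖w‖ ^ N := by
    have h4 : 4 * N * (4 * M) ^ n * ‖F.leadingCoeff‖ ≥ 1 := by
      rw [hn] at hbig ⊢
      simp only [Nat.add_sub_cancel] at hbig
      linarith
    have h5 : (N : ℝ) ^ n * (4 * M) ^ n ≤ ‖w‖ ^ n := by
      rw [← mul_pow]
      apply pow_le_pow_left₀ (by positivity)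
      linarith
    have h6 : 12 * (N : ℝ) * N ≤ (N : ℝ) ^ n := by
      obtain ⟨m, hm⟩ : ∃ m, n = m + 4 := ⟨n - 4, by omega⟩
      rw [hm, pow_add]
      have h7 : (1 : ℝ) ≤ (N : ℝ) ^ m := one_le_pow₀ (by linarith)
      have h8 : 12 * (N : ℝ) * N ≤ (N : ℝ) ^ 4 := by
        have h9 : (12 : ℝ) ≤ (N : ℝ) ^ 2 := by nlinarith
        have h10 : (N : ℝ) ^ 4 = (N : ℝ) ^ 2 * (N : ℝ) ^ 2 := by ring
        have h11 : 12 * (N : ℝ) ^ 2 ≤ (N : ℝ) ^ 2 * (N : ℝ) ^ 2 :=
          mul_le_mul_of_nonneg_right h9 (by positivity)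
        rw [h10]
        linarith [h11, show 12 * (N : ℝ) * N = 12 * (N : ℝ) ^ 2 by ring]
      nlinarith [pow_pos hNpos 4]
    have h9 : 12 * (N : ℝ) * N * (4 * M) ^ n ≤ ‖w‖ ^ n :=
      le_trans (mul_le_mul_of_nonneg_right h6 (by positivity)) h5
    have h10 : 3 * (N : ℝ) * (4 * N * (4 * M) ^ n * ‖F.leadingCoeff‖) ≤
        ‖F.leadingCoeff‖ * ‖w‖ ^ n := by
      calc 3 * (N : ℝ) * (4 * N * (4 * M) ^ n * ‖F.leadingCoeff‖) =
            ‖F.leadingCoeff‖ * (12 * (N : ℝ) * N * (4 * M) ^ n) := by ring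
        _ ≤ _ := mul_le_mul_of_nonneg_left h9 (norm_nonneg _)
    have h11 : 3 * (N : ℝ) ≤ ‖F.leadingCoeff‖ * ‖w‖ ^ n := by
      refine le_trans ?_ h10
      have : 3 * (N : ℝ) * 1 ≤ 3 * (N : ℝ) * (4 * N * (4 * M) ^ n * ‖F.leadingCoeff‖) :=
        mul_le_mul_of_nonneg_left h4 (by positivity)
      linarith
    calc 3 * (N : ℝ) * ‖w‖ ≤ ‖F.leadingCoeff‖ * ‖w‖ ^ n * ‖w‖ :=
          mul_le_mul_of_nonneg_right h11 hwpos.le
      _ = ‖F.leadingCoeff‖ * ‖w‖ ^ N := by
          have hp : ‖w‖ ^ N = ‖w‖ ^ n * ‖w‖ := by rw [hn, pow_succ]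
          rw [hp]
          ring
  have h4 : ‖F.eval w - F.eval 0 - F.leadingCoeff * w ^ N‖ ≤
      1 / 3 * (‖F.leadingCoeff‖ * ‖w‖ ^ N) := by
    rw [hNN] at *
    refine h1.trans ?_
    calc ‖F.leadingCoeff‖ * ((‖w‖ + M) ^ N - ‖w‖ ^ N) ≤
          ‖F.leadingCoeff‖ * (1 / 3 * ‖w‖ ^ N) := by
          apply mul_le_mul_of_nonneg_left _ (norm_nonneg _)
          linarith
      _ = _ := by ring
  have h5 : ‖F.leadingCoeff * w ^ N‖ = ‖F.leadingCoeff‖ * ‖w‖ ^ N := by
    rw [norm_mul, norm_pow]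
  have h6 : (F + C t).eval w = F.leadingCoeff * w ^ N +
      (F.eval w - F.eval 0 - F.leadingCoeff * w ^ N) + (F.eval 0 + t) := by
    rw [eval_add, eval_C]; ring
  have h7 : ‖F.leadingCoeff * w ^ N‖ ≤ ‖(F + C t).eval w‖ +
      ‖F.eval w - F.eval 0 - F.leadingCoeff * w ^ N‖ + (‖F.eval 0‖ + ‖t‖) := by
    rw [h6]
    calc ‖F.leadingCoeff * w ^ N‖ = ‖(F.leadingCoeff * w ^ N +
      (F.eval w - F.eval 0 - F.leadingCoeff * w ^ N) + (F.eval 0 + t)) -
        (F.eval w - F.eval 0 - F.leadingCoeff * w ^ N) - (F.eval 0 + t)‖ := by ring_nf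
      _ ≤ _ := (norm_sub_le _ _).trans (add_le_add (norm_sub_le _ _) (norm_add_le _ _))
  rw [h5] at h7
  have h8 : 0 ≤ ‖w‖ := hwpos.le
  have h9 : M ≤ ‖w‖ := by nlinarith
  nlinarith

end Pool.Agent.U818.FC
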