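import Mathlib

/-!
# Real functions with few critical points
-/

set_option autoImplicit false

open MeasureTheory Set Filter Topology

namespace Pool.Agent.U818.FC

lemma piece (u u' : ℝ → ℝ) (P : Set ℝ) (hP : P.OrdConnected) (hPm : MeasurableSet P)
    (hu : ∀ x ∈ P, HasDerivAt u (u' x) x ∧ u' x ≠ 0) (E : Set ℝ) (hE : MeasurableSet E)
    {L g : ℝ} (hg0 : 0 < g) (hL : ∀ x ∈ E, |u x| ≤ L) (hg : ∀ x ∈ E, g ≤ |u' x|) :
    volume (E ∩ P) ≤ ENNReal.ofReal (2 * L / g) := by
  have hinj : InjOn u P := by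
    intro a ha b hb hab
    by_contra hne
    wlog hlt : a < b generalizing a b
    · exact this hb ha hab.symm (Ne.symm hne) (lt_of_le_of_ne (not_lt.1 hlt) (Ne.symm hne))
    have hsub : Icc a b ⊆ P := hP.out ha hb
    obtain ⟨c, hc, hc0⟩ := exists_hasDerivAt_eq_zero (f := u) (f' := u') hlt
      (fun x hx => (hu x (hsub hx)).1.continuousAt.continuousWithinAt) hab
      (fun x hx => (hu x (hsub (Ioo_subset_Icc_self hx))).1)
    exact (hu c (hsub (Ioo_subset_Icc_self hc))).2 hc0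
  have h1 := lintegral_image_eq_lintegral_abs_deriv_mul (hE.inter hPm)
    (f := u) (f' := u') (fun x hx => (hu x hx.2).1.hasDerivWithinAt)
    (hinj.mono inter_subset_right) (fun _ => 1)
  rw [setLIntegral_one] at h1
  simp only [mul_one] at h1
  have h2 : volume (u '' (E ∩ P)) ≤ ENNReal.ofReal (2 * L) := by
    calc volume (u '' (E ∩ P)) ≤ volume (Icc (-L) L) := by
          apply measure_mono
          rintro _ ⟨x, hx, rfl⟩
          exact abs_le.1 (hL x hx.1)
      _ = ENNReal.ofReal (2 * L) := by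
          rw [Real.volume_Icc]
          congr 1
          ring
  have h3 : ENNReal.ofReal g * volume (E ∩ P) ≤ ∫⁻ x in E ∩ P, ENNReal.ofReal |u' x| := by
    rw [← setLIntegral_const]
    exact setLIntegral_mono' (hE.inter hPm)
      (fun x hx => ENNReal.ofReal_le_ofReal (hg x hx.1))
  rw [ENNReal.ofReal_div_of_pos hg0, ENNReal.le_div_iff_mul_le, mul_comm]
  · exact h3.trans (h1 ▸ h2)
  · left
    rw [Ne, ENNReal.ofReal_eq_zero, not_le]
    exact hg0
  · left; exact ENNReal.ofReal_ne_top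

lemma pieces (u u' : ℝ → ℝ) (T : Finset ℝ)
    (hu : ∀ x, x ∉ T → HasDerivAt u (u' x) x ∧ u' x ≠ 0) (E : Set ℝ) (hE : MeasurableSet E)
    {L g : ℝ} (hL0 : 0 ≤ L) (hg0 : 0 < g) (hL : ∀ x ∈ E, |u x| ≤ L) (hg : ∀ x ∈ E, g ≤ |u' x|) :
    volume E ≤ ENNReal.ofReal ((T.card + 1) * (2 * L / g)) := by
  classical
  set P₀ : Set ℝ := {x | ∀ s ∈ T, x < s} with hP₀
  set P : ℝ → Set ℝ := fun s => {x | s < x ∧ ∀ s' ∈ T, s' ≤ s ∨ x < s'} with hP
  have hP₀c : P₀.OrdConnected := by
    rw [ordConnected_iff]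
    intro x hx y hy _ z hz s hs
    exact hz.2.trans_lt (hy s hs)
  have hPc : ∀ s, (P s).OrdConnected := by
    intro s
    rw [ordConnected_iff]
    intro x hx y hy _ z hz
    refine ⟨hx.1.trans_le hz.1, fun s' hs' => ?_⟩
    rcases hy.2 s' hs' with h | h
    · exact Or.inl h
    · exact Or.inr (hz.2.trans_lt h)
  have hcov : E ⊆ ↑T ∪ ((E ∩ P₀) ∪ ⋃ s ∈ T, E ∩ P s) := by
    intro x hx
    by_cases hxT : x ∈ T
    · exact Or.inl hxT
    right
    by_cases h0 : ∀ s ∈ T, x < s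
    · exact Or.inl ⟨hx, h0⟩
    right
    push Not at h0
    obtain ⟨s₀, hs₀, hs₀x⟩ := h0
    have hne : (T.filter (fun s => s ≤ x)).Nonempty := ⟨s₀, Finset.mem_filter.2 ⟨hs₀, hs₀x⟩⟩
    obtain ⟨s, hs, hmax⟩ := (T.filter (fun s => s ≤ x)).exists_max_image id hne
    rw [Finset.mem_filter] at hs
    refine mem_iUnion₂.2 ⟨s, hs.1, hx, ?_, ?_⟩
    · exact lt_of_le_of_ne hs.2 (fun h => hxT (h ▸ hs.1))
    · intro s' hs'
      by_cases h : s' ≤ x
      · exact Or.inl (hmax s' (Finset.mem_filter.2 ⟨hs', h⟩))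
      · exact Or.inr (not_le.1 h)
  have hb0 : volume (E ∩ P₀) ≤ ENNReal.ofReal (2 * L / g) := by
    refine piece u u' P₀ hP₀c hP₀c.measurableSet (fun x hx => hu x (fun h => ?_)) E hE hg0 hL hg
    exact lt_irrefl _ (hx x h)
  have hbs : ∀ s ∈ T, volume (E ∩ P s) ≤ ENNReal.ofReal (2 * L / g) := by
    intro s _
    refine piece u u' (P s) (hPc s) (hPc s).measurableSet (fun x hx => hu x (fun h => ?_)) E hE
      hg0 hL hg
    rcases hx.2 x h with h' | h'
    · exact absurd hx.1 (not_lt.2 h')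
    · exact lt_irrefl _ h'
  calc volume E ≤ volume (↑T ∪ ((E ∩ P₀) ∪ ⋃ s ∈ T, E ∩ P s)) := measure_mono hcov
    _ ≤ volume (T : Set ℝ) + (volume (E ∩ P₀) + volume (⋃ s ∈ T, E ∩ P s)) :=
        (measure_union_le _ _).trans (add_le_add le_rfl (measure_union_le _ _))
    _ ≤ 0 + (ENNReal.ofReal (2 * L / g) + ∑ s ∈ T, ENNReal.ofReal (2 * L / g)) := by
        refine add_le_add (le_of_eq (T.finite_toSet.measure_zero _)) (add_le_add hb0 ?_)
        exact (measure_biUnion_finset_le _ _).trans (Finset.sum_le_sum hbs)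
    _ = _ := by
        have h2 : 0 ≤ 2 * L / g := by positivity
        rw [zero_add, Finset.sum_const, nsmul_eq_mul, ENNReal.ofReal_mul (by positivity),
          ENNReal.ofReal_add (by positivity) (by norm_num), ENNReal.ofReal_natCast,
          ENNReal.ofReal_one]
        ring

end Pool.Agent.U818.FC
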