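import Pool.Agent.U818.FC.Pieces

/-!
# The area of the set on which a polynomial with few distinct zeros has moderate size
-/

set_option autoImplicit false

open Polynomial MeasureTheory Set Filter Topology Metric

namespace Pool.Agent.U818.FC

lemma slices (A : Set ℂ) (hA : MeasurableSet A) (y₀ r : ℝ)
    (hAr : ∀ z ∈ A, |z.im - y₀| ≤ r) {s : ENNReal}
    (hs : ∀ y : ℝ, volume {x : ℝ | (⟨x, y⟩ : ℂ) ∈ A} ≤ s) :
    volume A ≤ ENNReal.ofReal (2 * r) * s := by
  have h1 : volume A = volume (Complex.measurableEquivRealProd.symm ⁻¹' A) :=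
    ((Complex.volume_preserving_equiv_real_prod.symm).measure_preimage
      hA.nullMeasurableSet).symm
  have h2 : MeasurableSet (Complex.measurableEquivRealProd.symm ⁻¹' A) :=
    Complex.measurableEquivRealProd.symm.measurable hA
  rw [h1, Measure.volume_eq_prod, Measure.prod_apply_symm h2]
  have h3 : ∀ y : ℝ, volume ((fun x => (x, y)) ⁻¹' (Complex.measurableEquivRealProd.symm ⁻¹' A)) ≤
      (Icc (y₀ - r) (y₀ + r)).indicator (fun _ => s) y := by
    intro y
    have h4 : (fun x => (x, y)) ⁻¹' (Complex.measurableEquivRealProd.symm ⁻¹' A) =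
        {x : ℝ | (⟨x, y⟩ : ℂ) ∈ A} := rfl
    rw [h4]
    by_cases hy : y ∈ Icc (y₀ - r) (y₀ + r)
    · rw [indicator_of_mem hy]
      exact hs y
    · rw [indicator_of_notMem hy]
      have : {x : ℝ | (⟨x, y⟩ : ℂ) ∈ A} = ∅ := by
        apply eq_empty_of_forall_notMem
        intro x hx
        apply hy
        have := abs_le.1 (hAr _ hx)
        simp only at this
        constructor <;> linarith [this.1, this.2]
      rw [this]
      simp
  refine (lintegral_mono h3).trans ?_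
  rw [lintegral_indicator measurableSet_Icc, setLIntegral_const, Real.volume_Icc, mul_comm]
  apply le_of_eq
  congr 2
  ring

/-- The polynomial `∑ m_c ∏_{c' ≠ c} (X - c')`. -/
noncomputable def P0 (p : ℂ[X]) : ℂ[X] :=
  ∑ c ∈ p.roots.toFinset, C (p.roots.count c : ℂ) * ∏ c' ∈ p.roots.toFinset.erase c, (X - C c')

lemma sum_count (p : ℂ[X]) :
    ∑ c ∈ p.roots.toFinset, p.roots.count c = p.natDegree := by
  rw [Multiset.toFinset_sum_count_eq]
  exact (splits_iff_card_roots.1 (IsAlgClosed.splits p))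

lemma P0_coeff (p : ℂ[X]) :
    (P0 p).coeff (p.roots.toFinset.card - 1) = (p.natDegree : ℂ) := by
  rw [P0, finsetSum_coeff, ← sum_count p]
  push_cast
  refine Finset.sum_congr rfl (fun c hc => ?_)
  rw [coeff_C_mul]
  have hm : (∏ c' ∈ p.roots.toFinset.erase c, (X - C c')).Monic :=
    monic_prod_of_monic _ _ (fun c' _ => monic_X_sub_C c')
  have hd : (∏ c' ∈ p.roots.toFinset.erase c, (X - C c')).natDegree =
      p.roots.toFinset.card - 1 := by
    rw [natDegree_prod_of_monic _ _ (fun c' _ => monic_X_sub_C c')]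
    simp [Finset.card_erase_of_mem hc]
  rw [← hd, hm.coeff_natDegree, mul_one]

lemma P0_natDegree_le (p : ℂ[X]) : (P0 p).natDegree ≤ p.roots.toFinset.card - 1 := by
  refine natDegree_sum_le_of_forall_le _ _ (fun c hc => ?_)
  refine (natDegree_C_mul_le _ _).trans ?_
  rw [natDegree_prod_of_monic _ _ (fun c' _ => monic_X_sub_C c')]
  simp [Finset.card_erase_of_mem hc]

lemma P0_natDegree (p : ℂ[X]) (hp : 0 < p.natDegree) :
    (P0 p).natDegree = p.roots.toFinset.card - 1 := by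
  refine le_antisymm (P0_natDegree_le p) (le_natDegree_of_ne_zero ?_)
  rw [P0_coeff]
  exact_mod_cast hp.ne'

lemma P0_leadingCoeff (p : ℂ[X]) (hp : 0 < p.natDegree) :
    (P0 p).leadingCoeff = (p.natDegree : ℂ) := by
  rw [leadingCoeff, P0_natDegree p hp, P0_coeff]

lemma norm_eval' (p : ℂ[X]) (z : ℂ) :
    ‖p.eval z‖ = ‖p.leadingCoeff‖ * (p.roots.map (fun c => ‖z - c‖)).prod := by
  have h := (IsAlgClosed.splits p).eval_eq_prod_roots z
  rw [h, norm_mul]
  congr 1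
  have := map_multiset_prod (normHom : ℂ →*₀ ℝ) (p.roots.map (fun c => z - c))
  rw [Multiset.map_map] at this
  exact this

lemma P0_lower (p : ℂ[X]) (hp : 0 < p.natDegree) {k : ℕ} (hk : p.roots.toFinset.card ≤ k)
    {θ : ℝ} (hθ0 : 0 < θ) (hθ1 : θ ≤ 1) {z : ℂ} (hz : ∀ b ∈ (P0 p).roots, θ ≤ ‖z - b‖) :
    p.natDegree * θ ^ (k - 1) ≤ ‖(P0 p).eval z‖ := by
  rw [norm_eval', P0_leadingCoeff p hp]
  have h1 : θ ^ (Multiset.card (P0 p).roots) ≤ ((P0 p).roots.map (fun c => ‖z - c‖)).prod := by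
    calc θ ^ (Multiset.card (P0 p).roots) = ((P0 p).roots.map (fun _ => θ)).prod := by simp
      _ ≤ _ := Multiset.prod_map_le_prod_map₀ _ _ (fun c _ => hθ0.le) hz
  have h2 : θ ^ (k - 1) ≤ θ ^ (Multiset.card (P0 p).roots) := by
    apply pow_le_pow_of_le_one hθ0.le hθ1
    calc Multiset.card (P0 p).roots ≤ (P0 p).natDegree := card_roots' _
      _ = p.roots.toFinset.card - 1 := P0_natDegree p hp
      _ ≤ k - 1 := Nat.sub_le_sub_right hk 1
  rw [Complex.norm_natCast]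
  exact mul_le_mul_of_nonneg_left (h2.trans h1) (by positivity)

lemma logderiv (p : ℂ[X]) {z : ℂ} (hz : p.eval z ≠ 0) :
    p.derivative.eval z / p.eval z =
      ∑ c ∈ p.roots.toFinset, (p.roots.count c : ℂ) * (1 / (z - c)) := by
  rw [(IsAlgClosed.splits p).eval_derivative_div_eval_of_ne_zero hz,
    Finset.sum_multiset_map_count]
  refine Finset.sum_congr rfl (fun c _ => ?_)
  rw [nsmul_eq_mul]

lemma ne_root (p : ℂ[X]) {z : ℂ} (hz : p.eval z ≠ 0) {c : ℂ} (hc : c ∈ p.roots.toFinset) :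
    z - c ≠ 0 := by
  intro h
  have h1 : z = c := sub_eq_zero.1 h
  have h2 := (mem_roots'.1 (Multiset.mem_toFinset.1 hc)).2
  rw [IsRoot.def, ← h1] at h2
  exact hz h2

lemma logderiv_mul (p : ℂ[X]) {z : ℂ} (hz : p.eval z ≠ 0) :
    p.derivative.eval z / p.eval z * ∏ c ∈ p.roots.toFinset, (z - c) = (P0 p).eval z := by
  rw [logderiv p hz, P0, eval_finsetSum, Finset.sum_mul]
  refine Finset.sum_congr rfl (fun c hc => ?_)
  rw [eval_mul, eval_C, eval_prod, ← Finset.mul_prod_erase _ _ hc]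
  have h := ne_root p hz hc
  simp only [eval_sub, eval_X, eval_C]
  field_simp

lemma logderiv_lower (p : ℂ[X]) (hp : 0 < p.natDegree) {k : ℕ}
    (hk : p.roots.toFinset.card ≤ k) {M ρ : ℝ} (hM : ∀ c ∈ p.roots, ‖c‖ ≤ M) (h1 : 1 ≤ ρ + M)
    {θ : ℝ} (hθ0 : 0 < θ) (hθ1 : θ ≤ 1) {z : ℂ} (hzp : p.eval z ≠ 0) (hzρ : ‖z‖ ≤ ρ)
    (hz : ∀ b ∈ (P0 p).roots, θ ≤ ‖z - b‖) :
    p.natDegree * θ ^ (k - 1) / (ρ + M) ^ k ≤ ‖p.derivative.eval z / p.eval z‖ := by
  have h2 := P0_lower p hp hk hθ0 hθ1 hz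
  rw [← logderiv_mul p hzp, norm_mul] at h2
  have h3 : ‖∏ c ∈ p.roots.toFinset, (z - c)‖ ≤ (ρ + M) ^ k := by
    rw [norm_prod]
    calc ∏ c ∈ p.roots.toFinset, ‖z - c‖ ≤ ∏ _c ∈ p.roots.toFinset, (ρ + M) := by
          refine Finset.prod_le_prod (fun c _ => norm_nonneg _) (fun c hc => ?_)
          calc ‖z - c‖ ≤ ‖z‖ + ‖c‖ := norm_sub_le _ _
            _ ≤ ρ + M := add_le_add hzρ (hM c (Multiset.mem_toFinset.1 hc))
      _ = (ρ + M) ^ (p.roots.toFinset.card) := by simp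
      _ ≤ (ρ + M) ^ k := pow_le_pow_right₀ h1 hk
  have h4 : 0 < (ρ + M) ^ k := by positivity
  rw [div_le_iff₀ h4]
  exact h2.trans (mul_le_mul_of_nonneg_left h3 (norm_nonneg _))

/-- The real polynomial whose zeros are the critical points of `log ‖p‖` on the line
`w + x e`. -/
noncomputable def lineq (p : ℂ[X]) (w e : ℂ) : ℝ[X] :=
  ∑ c ∈ p.roots.toFinset, C (p.roots.count c : ℝ) *
    ((X + C (e * (starRingEnd ℂ) (w - c)).re) *
      ∏ c' ∈ p.roots.toFinset.erase c,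
        (X ^ 2 + (C (2 * (e * (starRingEnd ℂ) (w - c')).re) * X + C (‖w - c'‖ ^ 2))))

lemma quad_monic (a b : ℝ) : (X ^ 2 + (C a * X + C b) : ℝ[X]).Monic ∧
    (X ^ 2 + (C a * X + C b) : ℝ[X]).natDegree = 2 := by
  have h1 : (C a * X + C b : ℝ[X]).degree < ((2 : ℕ) : WithBot ℕ) :=
    lt_of_le_of_lt degree_linear_le (by norm_num)
  refine ⟨monic_X_pow_add h1, ?_⟩
  have h2 : (C a * X + C b : ℝ[X]).degree < (X ^ 2 : ℝ[X]).degree := by
    rw [degree_X_pow]
    exact h1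
  rw [natDegree_add_eq_left_of_degree_lt h2, natDegree_X_pow]

lemma lineq_term (p : ℂ[X]) (w e : ℂ) {c : ℂ} (hc : c ∈ p.roots.toFinset) :
    ((X + C (e * (starRingEnd ℂ) (w - c)).re) *
      ∏ c' ∈ p.roots.toFinset.erase c,
        (X ^ 2 + (C (2 * (e * (starRingEnd ℂ) (w - c')).re) * X + C (‖w - c'‖ ^ 2)))).Monic ∧
    ((X + C (e * (starRingEnd ℂ) (w - c)).re) *
      ∏ c' ∈ p.roots.toFinset.erase c,
        (X ^ 2 + (C (2 * (e * (starRingEnd ℂ) (w - c')).re) * X +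
          C (‖w - c'‖ ^ 2)))).natDegree = 2 * p.roots.toFinset.card - 1 := by
  have h1 : (∏ c' ∈ p.roots.toFinset.erase c,
        (X ^ 2 + (C (2 * (e * (starRingEnd ℂ) (w - c')).re) * X +
          C (‖w - c'‖ ^ 2)) : ℝ[X])).Monic :=
    monic_prod_of_monic _ _ (fun c' _ => (quad_monic _ _).1)
  refine ⟨(monic_X_add_C _).mul h1, ?_⟩
  rw [(monic_X_add_C _).natDegree_mul h1, natDegree_X_add_C,
    natDegree_prod_of_monic _ _ (fun c' _ => (quad_monic _ _).1),
    Finset.sum_congr rfl (fun c' _ => (quad_monic _ _).2)]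
  rw [Finset.sum_const, Finset.card_erase_of_mem hc, smul_eq_mul]
  have : 0 < p.roots.toFinset.card := Finset.card_pos.2 ⟨c, hc⟩
  omega

lemma lineq_coeff (p : ℂ[X]) (w e : ℂ) :
    (lineq p w e).coeff (2 * p.roots.toFinset.card - 1) = (p.natDegree : ℝ) := by
  rw [lineq, finsetSum_coeff, ← sum_count p]
  push_cast
  refine Finset.sum_congr rfl (fun c hc => ?_)
  rw [coeff_C_mul, ← (lineq_term p w e hc).2, (lineq_term p w e hc).1.coeff_natDegree, mul_one]

lemma lineq_natDegree_le (p : ℂ[X]) (w e : ℂ) :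
    (lineq p w e).natDegree ≤ 2 * p.roots.toFinset.card - 1 := by
  refine natDegree_sum_le_of_forall_le _ _ (fun c hc => ?_)
  refine (natDegree_C_mul_le _ _).trans ?_
  rw [(lineq_term p w e hc).2]

lemma lineq_ne_zero (p : ℂ[X]) (hp : 0 < p.natDegree) (w e : ℂ) : lineq p w e ≠ 0 := by
  intro h
  have := lineq_coeff p w e
  rw [h, coeff_zero] at this
  have h2 : (0 : ℝ) < p.natDegree := by exact_mod_cast hp
  linarith

lemma normSq_line (w e c : ℂ) (he : ‖e‖ = 1) (x : ℝ) :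
    ‖w + x * e - c‖ ^ 2 =
      x ^ 2 + (2 * (e * (starRingEnd ℂ) (w - c)).re * x + ‖w - c‖ ^ 2) := by
  have he2 : e.re * e.re + e.im * e.im = 1 := by
    have := Complex.sq_norm e
    rw [he, Complex.normSq_apply] at this
    linarith
  rw [Complex.sq_norm, Complex.sq_norm, Complex.normSq_apply, Complex.normSq_apply]
  simp only [Complex.sub_re, Complex.add_re, Complex.mul_re, Complex.ofReal_re, Complex.ofReal_im,
    Complex.sub_im, Complex.add_im, Complex.mul_im, Complex.conj_re, Complex.conj_im]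
  linear_combination (x ^ 2) * he2

lemma re_line (w e c : ℂ) (he : ‖e‖ = 1) (x : ℝ) (hne : w + x * e - c ≠ 0) :
    (e * (1 / (w + x * e - c))).re * ‖w + x * e - c‖ ^ 2 =
      x + (e * (starRingEnd ℂ) (w - c)).re := by
  have he2 : e.re * e.re + e.im * e.im = 1 := by
    have := Complex.sq_norm e
    rw [he, Complex.normSq_apply] at this
    linarith
  have h1 : (0 : ℝ) < Complex.normSq (w + x * e - c) := Complex.normSq_pos.2 hne
  rw [Complex.sq_norm, one_div, Complex.mul_re, Complex.inv_re, Complex.inv_im]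
  rw [sub_mul, mul_assoc, mul_assoc, div_mul_cancel₀ _ h1.ne', div_mul_cancel₀ _ h1.ne']
  simp only [Complex.sub_re, Complex.add_re, Complex.mul_re, Complex.ofReal_re, Complex.ofReal_im,
    Complex.sub_im, Complex.add_im, Complex.mul_im, Complex.conj_re, Complex.conj_im]
  linear_combination x * he2

lemma lineq_eval (p : ℂ[X]) (w e : ℂ) (he : ‖e‖ = 1) (x : ℝ) (hx : p.eval (w + x * e) ≠ 0) :
    (e * (p.derivative.eval (w + x * e) / p.eval (w + x * e))).re *
      ∏ c ∈ p.roots.toFinset, ‖w + x * e - c‖ ^ 2 = (lineq p w e).eval x := by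
  rw [logderiv p hx, lineq, eval_finsetSum, Finset.mul_sum, Complex.re_sum, Finset.sum_mul]
  refine Finset.sum_congr rfl (fun c hc => ?_)
  rw [eval_mul, eval_C, eval_mul, eval_prod, ← Finset.mul_prod_erase _ _ hc]
  have h := ne_root p hx hc
  have h1 := re_line w e c he x h
  have h2 : (e * ((p.roots.count c : ℂ) * (1 / (w + x * e - c)))).re =
      (p.roots.count c : ℝ) * (e * (1 / (w + x * e - c))).re := by
    rw [← Complex.re_ofReal_mul]
    congr 1
    push_cast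
    ring
  rw [h2]
  have h3 : ∏ c' ∈ p.roots.toFinset.erase c, ‖w + x * e - c'‖ ^ 2 =
      ∏ c' ∈ p.roots.toFinset.erase c, (X ^ 2 + (C (2 * (e * (starRingEnd ℂ) (w - c')).re) * X +
          C (‖w - c'‖ ^ 2)) : ℝ[X]).eval x := by
    refine Finset.prod_congr rfl (fun c' _ => ?_)
    rw [normSq_line w e c' he x]
    simp
  rw [h3]
  have h4 : (X + C (e * (starRingEnd ℂ) (w - c)).re : ℝ[X]).eval x =
      x + (e * (starRingEnd ℂ) (w - c)).re := by simp
  rw [h4, ← h1]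
  ring

lemma inner_alg (e a b : ℂ) (ha : a ≠ 0) :
    1 / 2 * (2 * (inner ℝ a (b * e) : ℝ) / ‖a‖ ^ 2) = (e * (b / a)).re := by
  have h7 : (starRingEnd ℂ) a ≠ 0 := by
    rw [Ne, map_eq_zero]
    exact ha
  have h6 : ((‖a‖ ^ 2 : ℝ) : ℂ) = a * (starRingEnd ℂ) a := by
    rw [Complex.mul_conj, Complex.normSq_eq_norm_sq]
  have h5 : e * (b / a) = ((((‖a‖ ^ 2)⁻¹ : ℝ)) : ℂ) * ((starRingEnd ℂ) a * (b * e)) := by
    rw [Complex.ofReal_inv, h6]
    field_simp
  rw [h5, Complex.re_ofReal_mul]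
  have h8 : (inner ℝ a (b * e) : ℝ) = ((starRingEnd ℂ) a * (b * e)).re := by
    rw [Complex.inner, mul_comm]
  rw [h8]
  ring

lemma hasDerivAt_log_norm (p : ℂ[X]) (w e : ℂ) (x : ℝ) (hx : p.eval (w + x * e) ≠ 0) :
    HasDerivAt (fun x : ℝ => Real.log ‖p.eval (w + x * e)‖)
      (e * (p.derivative.eval (w + x * e) / p.eval (w + x * e))).re x := by
  have h0 : HasDerivAt (fun x : ℝ => w + (x : ℂ) * e) e x := by
    have := (Complex.ofRealCLM.hasDerivAt (x := x)).mul_const e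
    simpa using this.const_add w
  have h1 : HasDerivAt (fun x : ℝ => p.eval (w + x * e))
      (p.derivative.eval (w + x * e) * e) x := by
    have := HasDerivAt.comp (h₂ := fun z => p.eval z) x (p.hasDerivAt (w + x * e)) h0
    exact this
  have h2 := h1.norm_sq
  have hpos : 0 < ‖p.eval (w + x * e)‖ := norm_pos_iff.2 hx
  have h3 := (h2.log (by positivity)).const_mul (1 / 2 : ℝ)
  have h4 : (fun x : ℝ => Real.log ‖p.eval (w + x * e)‖) =
      fun x : ℝ => 1 / 2 * Real.log (‖p.eval (w + x * e)‖ ^ 2) := by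
    funext y
    rw [Real.log_pow]
    push_cast
    ring
  rw [h4]
  refine h3.congr_deriv ?_
  exact inner_alg e _ _ hx

lemma line_slice (p : ℂ[X]) (hp : 0 < p.natDegree) {k : ℕ} (hk : p.roots.toFinset.card ≤ k)
    (w e : ℂ) (he : ‖e‖ = 1) (E : Set ℝ) (hE : MeasurableSet E) {L g : ℝ} (hL0 : 0 ≤ L)
    (hg0 : 0 < g) (hE1 : ∀ x ∈ E, Real.exp (-L) ≤ ‖p.eval (w + x * e)‖)
    (hE2 : ∀ x ∈ E, ‖p.eval (w + x * e)‖ ≤ Real.exp L)
    (hE3 : ∀ x ∈ E, g ≤ |(e * (p.derivative.eval (w + x * e) / p.eval (w + x * e))).re|) :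
    volume E ≤ ENNReal.ofReal (6 * k * L / g) := by
  classical
  have hp0 : p ≠ 0 := by
    rintro rfl
    simp at hp
  have hZpos : 0 < p.roots.toFinset.card := by
    rw [Finset.card_pos]
    have h1 : 0 < Multiset.card p.roots := by
      rw [← splits_iff_card_roots.1 (IsAlgClosed.splits p)] at hp
      exact hp
    obtain ⟨c, hc⟩ := Multiset.card_pos_iff_exists_mem.1 h1
    exact ⟨c, Multiset.mem_toFinset.2 hc⟩
  set T : Finset ℝ := (lineq p w e).roots.toFinset ∪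
    p.roots.toFinset.image (fun c => -(e * (starRingEnd ℂ) (w - c)).re) with hT
  have hTc : T.card + 1 ≤ 3 * k := by
    have h1 : (lineq p w e).roots.toFinset.card ≤ 2 * p.roots.toFinset.card - 1 :=
      (Multiset.toFinset_card_le _).trans ((card_roots' _).trans (lineq_natDegree_le p w e))
    have h2 : (p.roots.toFinset.image (fun c => -(e * (starRingEnd ℂ) (w - c)).re)).card ≤
        p.roots.toFinset.card := Finset.card_image_le
    have h3 : T.card ≤ _ := Finset.card_union_le _ _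
    omega
  have hne : ∀ x : ℝ, x ∉ T → p.eval (w + x * e) ≠ 0 := by
    intro x hx h0
    apply hx
    rw [hT, Finset.mem_union]
    right
    rw [Finset.mem_image]
    refine ⟨w + x * e, Multiset.mem_toFinset.2 ((mem_roots hp0).2 h0), ?_⟩
    have he2 : e.re * e.re + e.im * e.im = 1 := by
      have := Complex.sq_norm e
      rw [he, Complex.normSq_apply] at this
      linarith
    simp only [Complex.sub_re, Complex.add_re, Complex.mul_re, Complex.ofReal_re,
      Complex.ofReal_im, Complex.sub_im, Complex.add_im, Complex.mul_im, Complex.conj_re,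
      Complex.conj_im]
    linear_combination x * he2
  have hu : ∀ x : ℝ, x ∉ T →
      HasDerivAt (fun x : ℝ => Real.log ‖p.eval (w + x * e)‖)
        ((fun x : ℝ => (e * (p.derivative.eval (w + x * e) / p.eval (w + x * e))).re) x) x ∧
      (fun x : ℝ => (e * (p.derivative.eval (w + x * e) / p.eval (w + x * e))).re) x ≠ 0 := by
    intro x hx
    refine ⟨hasDerivAt_log_norm p w e x (hne x hx), ?_⟩
    intro h0
    have h0' : (e * (p.derivative.eval (w + x * e) / p.eval (w + x * e))).re = 0 := h0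
    have h1 := lineq_eval p w e he x (hne x hx)
    rw [h0', zero_mul] at h1
    apply hx
    rw [hT, Finset.mem_union]
    left
    rw [Multiset.mem_toFinset, mem_roots (lineq_ne_zero p hp w e)]
    exact h1.symm
  have hL : ∀ x ∈ E, |(fun x : ℝ => Real.log ‖p.eval (w + x * e)‖) x| ≤ L := by
    intro x hx
    have h1 := hE1 x hx
    have h2 := hE2 x hx
    have h3 : 0 < ‖p.eval (w + x * e)‖ := lt_of_lt_of_le (Real.exp_pos _) h1
    rw [abs_le]
    constructor
    · exact (Real.le_log_iff_exp_le h3).2 h1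
    · exact (Real.log_le_iff_le_exp h3).2 h2
  have hfin := pieces _ _ T hu E hE hL0 hg0 hL hE3
  refine hfin.trans (ENNReal.ofReal_le_ofReal ?_)
  have h1 : ((T.card : ℝ) + 1) ≤ 3 * k := by exact_mod_cast hTc
  have h2 : 0 ≤ 2 * L / g := by positivity
  calc ((T.card : ℝ) + 1) * (2 * L / g) ≤ 3 * k * (2 * L / g) :=
        mul_le_mul_of_nonneg_right h1 h2
    _ = 6 * k * L / g := by ring

lemma zone_dir (p : ℂ[X]) (hp : 0 < p.natDegree) {k : ℕ} (hk : p.roots.toFinset.card ≤ k)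
    (e : ℂ) (he : ‖e‖ = 1) {L g : ℝ} (hL0 : 0 ≤ L) (hg0 : 0 < g) (z₀ : ℂ) {r ρ : ℝ} :
    volume {z : ℂ | ‖z - z₀‖ ≤ r ∧ ‖z‖ ≤ ρ ∧ Real.exp (-L) ≤ ‖p.eval z‖ ∧
      ‖p.eval z‖ ≤ Real.exp L ∧ g ≤ |(e * (p.derivative.eval z / p.eval z)).re|} ≤
      ENNReal.ofReal (2 * r) * ENNReal.ofReal (6 * k * L / g) := by
  set A : Set ℂ := {z : ℂ | ‖z - z₀‖ ≤ r ∧ ‖z‖ ≤ ρ ∧ Real.exp (-L) ≤ ‖p.eval z‖ ∧
      ‖p.eval z‖ ≤ Real.exp L ∧ g ≤ |(e * (p.derivative.eval z / p.eval z)).re|} with hA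
  have hAm : MeasurableSet A := by
    have h2 : Measurable (fun z : ℂ => ‖z - z₀‖) := (measurable_id.sub measurable_const).norm
    have h1 : Measurable (fun z : ℂ => (e * (p.derivative.eval z / p.eval z)).re) :=
      Complex.measurable_re.comp (measurable_const.mul
        (p.derivative.continuous.measurable.div p.continuous.measurable))
    have h3 : Measurable (fun z : ℂ => ‖p.eval z‖) := p.continuous.norm.measurable
    have m1 : MeasurableSet {z : ℂ | ‖z - z₀‖ ≤ r} := measurableSet_le h2 measurable_const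
    have m2 : MeasurableSet {z : ℂ | ‖z‖ ≤ ρ} := measurableSet_le measurable_norm measurable_const
    have m3 : MeasurableSet {z : ℂ | Real.exp (-L) ≤ ‖p.eval z‖} :=
      measurableSet_le measurable_const h3
    have m4 : MeasurableSet {z : ℂ | ‖p.eval z‖ ≤ Real.exp L} :=
      measurableSet_le h3 measurable_const
    have m5 : MeasurableSet {z : ℂ | g ≤ |(e * (p.derivative.eval z / p.eval z)).re|} :=
      measurableSet_le measurable_const h1.abs
    exact m1.inter (m2.inter (m3.inter (m4.inter m5)))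
  have hee : e * (starRingEnd ℂ) e = 1 := by
    rw [Complex.mul_conj, Complex.normSq_eq_norm_sq, he]
    simp
  -- rotate
  set φ : ℂ ≃ₗᵢ[ℝ] ℂ := rotation ⟨e, by simp [Submonoid.unitSphere, he]⟩ with hφ
  have hφa : ∀ z, φ z = e * z := fun z => by rw [hφ, rotation_apply]
  have hmp : MeasurePreserving φ := φ.measurePreserving
  have hvol : volume A = volume (φ ⁻¹' A) := (hmp.measure_preimage hAm.nullMeasurableSet).symm
  rw [hvol]
  refine slices (φ ⁻¹' A) (hmp.measurable hAm) ((starRingEnd ℂ) e * z₀).im r ?_ ?_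
  · intro z hz
    have h1 : ‖φ z - z₀‖ ≤ r := hz.1
    rw [hφa] at h1
    have h2 : e * z - z₀ = e * (z - (starRingEnd ℂ) e * z₀) := by
      linear_combination z₀ * hee
    rw [h2, norm_mul, he, one_mul] at h1
    rw [← Complex.sub_im]
    exact (Complex.abs_im_le_norm _).trans h1
  · intro y
    have hmk : ∀ x : ℝ, φ (⟨x, y⟩ : ℂ) = e * (y * Complex.I) + x * e := by
      intro x
      rw [hφa]
      have : (⟨x, y⟩ : ℂ) = x + y * Complex.I := by
        apply Complex.ext <;> simp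
      rw [this]
      ring
    have hEm : MeasurableSet {x : ℝ | (⟨x, y⟩ : ℂ) ∈ φ ⁻¹' A} := by
      have h1 : Measurable (fun x : ℝ => (⟨x, y⟩ : ℂ)) := by
        have : (fun x : ℝ => (⟨x, y⟩ : ℂ)) = fun x : ℝ => (x : ℂ) + y * Complex.I := by
          funext x
          apply Complex.ext <;> simp
        rw [this]
        exact (Complex.measurable_ofReal).add measurable_const
      exact h1 (hmp.measurable hAm)
    refine line_slice p hp hk (e * (y * Complex.I)) e he _ hEm hL0 hg0 ?_ ?_ ?_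
    · intro x hx
      have h1 : φ (⟨x, y⟩ : ℂ) ∈ A := hx
      rw [hmk] at h1
      exact h1.2.2.1
    · intro x hx
      have h1 : φ (⟨x, y⟩ : ℂ) ∈ A := hx
      rw [hmk] at h1
      exact h1.2.2.2.1
    · intro x hx
      have h1 : φ (⟨x, y⟩ : ℂ) ∈ A := hx
      rw [hmk] at h1
      exact h1.2.2.2.2

lemma volume_closedBall_eq (c : ℂ) {r : ℝ} (hr : 0 ≤ r) :
    volume (closedBall c r) = ENNReal.ofReal (Real.pi * r ^ 2) := by
  rw [Complex.volume_closedBall, mul_comm (Real.pi) _, ENNReal.ofReal_mul (by positivity),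
    ENNReal.ofReal_pow hr]
  congr 1
  rw [ENNReal.ofReal]
  congr 1
  exact (Real.toNNReal_of_nonneg Real.pi_pos.le).symm

/-- The part of the zone `exp (-L) ≤ ‖p z‖ ≤ exp L` in a disc of radius `r` on which all critical
points of `log ‖p‖` are at distance at least `θ`. -/
theorem zone_core (p : ℂ[X]) (hp : 0 < p.natDegree) {k : ℕ} (hk : p.roots.toFinset.card ≤ k)
    {M ρ : ℝ} (hM : ∀ c ∈ p.roots, ‖c‖ ≤ M) (h1 : 1 ≤ ρ + M)
    {θ : ℝ} (hθ0 : 0 < θ) (hθ1 : θ ≤ 1) {L : ℝ} (hL0 : 0 ≤ L) (z₀ : ℂ) {r : ℝ} (hr : 0 ≤ r) :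
    volume {z : ℂ | ‖z - z₀‖ ≤ r ∧ ‖z‖ ≤ ρ ∧ Real.exp (-L) ≤ ‖p.eval z‖ ∧
      ‖p.eval z‖ ≤ Real.exp L ∧ ∀ b ∈ (P0 p).roots, θ ≤ ‖z - b‖} ≤
      ENNReal.ofReal (48 * k * (ρ + M) ^ k * (r * L / (p.natDegree * θ ^ (k - 1)))) := by
  classical
  have hD : (0 : ℝ) < p.natDegree := by exact_mod_cast hp
  have hρM : 0 < (ρ + M) ^ k := by positivity
  set G : ℝ := p.natDegree * θ ^ (k - 1) / (ρ + M) ^ k with hG
  have hG0 : 0 < G := by positivity
  set A : ℂ → Set ℂ := fun e => {z : ℂ | ‖z - z₀‖ ≤ r ∧ ‖z‖ ≤ ρ ∧ Real.exp (-L) ≤ ‖p.eval z‖ ∧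
      ‖p.eval z‖ ≤ Real.exp L ∧ G / 2 ≤ |(e * (p.derivative.eval z / p.eval z)).re|} with hA
  have hcov : {z : ℂ | ‖z - z₀‖ ≤ r ∧ ‖z‖ ≤ ρ ∧ Real.exp (-L) ≤ ‖p.eval z‖ ∧
      ‖p.eval z‖ ≤ Real.exp L ∧ ∀ b ∈ (P0 p).roots, θ ≤ ‖z - b‖} ⊆ A 1 ∪ A Complex.I := by
    rintro z ⟨hz1, hz2, hz3, hz4, hb⟩
    have hzp : p.eval z ≠ 0 := by
      intro h0
      rw [h0, norm_zero] at hz3
      exact absurd (Real.exp_pos (-L)) (not_lt.2 hz3)
    have h2 := logderiv_lower p hp hk hM h1 hθ0 hθ1 hzp hz2 hb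
    rw [← hG] at h2
    set q := p.derivative.eval z / p.eval z with hq
    have h3 : ‖q‖ ≤ |q.re| + |q.im| := Complex.norm_le_abs_re_add_abs_im q
    by_cases h4 : G / 2 ≤ |q.re|
    · left
      refine ⟨hz1, hz2, hz3, hz4, ?_⟩
      rw [one_mul]
      exact h4
    · right
      refine ⟨hz1, hz2, hz3, hz4, ?_⟩
      have h5 : (Complex.I * q).re = -q.im := by simp
      rw [← hq, h5, abs_neg]
      push Not at h4
      linarith
  have hG2 : 0 < G / 2 := by positivity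
  have hdir : ∀ e : ℂ, ‖e‖ = 1 → volume (A e) ≤
      ENNReal.ofReal (24 * k * (ρ + M) ^ k * (r * L / (p.natDegree * θ ^ (k - 1)))) := by
    intro e he
    refine (zone_dir p hp hk e he hL0 hG2 z₀).trans ?_
    rw [← ENNReal.ofReal_mul (by positivity)]
    apply ENNReal.ofReal_le_ofReal
    apply le_of_eq
    rw [hG]
    field_simp
    ring
  refine (measure_mono hcov).trans ?_
  refine (measure_union_le _ _).trans ?_
  refine (add_le_add (hdir 1 (by simp)) (hdir Complex.I (by simp))).trans ?_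
  rw [← ENNReal.ofReal_add (by positivity) (by positivity)]
  apply ENNReal.ofReal_le_ofReal
  apply le_of_eq
  ring

lemma P0_roots_card (p : ℂ[X]) {k : ℕ} (hk : p.roots.toFinset.card ≤ k) :
    (P0 p).roots.toFinset.card ≤ k - 1 :=
  (Multiset.toFinset_card_le _).trans ((card_roots' _).trans
    ((P0_natDegree_le p).trans (Nat.sub_le_sub_right hk 1)))

/-- The zone lemma, dyadic form. -/
theorem zone (p : ℂ[X]) (hp : 0 < p.natDegree) {k : ℕ} (hk : p.roots.toFinset.card ≤ k)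
    {M ρ : ℝ} (hM : ∀ c ∈ p.roots, ‖c‖ ≤ M) (h1 : 1 ≤ ρ + M)
    {θ : ℝ} (hθ0 : 0 < θ) (hθ1 : θ ≤ 1) {L : ℝ} (hL0 : 0 ≤ L) (z₀ : ℂ) {r : ℝ} (hr : 0 ≤ r)
    (n : ℕ) :
    volume {z : ℂ | ‖z - z₀‖ ≤ r ∧ ‖z‖ ≤ ρ ∧ Real.exp (-L) ≤ ‖p.eval z‖ ∧
      ‖p.eval z‖ ≤ Real.exp L} ≤
      ENNReal.ofReal (48 * k * (ρ + M) ^ k * (r * L / (p.natDegree * θ ^ (k - 1)))) +
      ((∑ i ∈ Finset.range n, ((k - 1 : ℕ) : ENNReal) *
        ENNReal.ofReal (48 * k * (ρ + M) ^ k * (θ * (1 / 2) ^ i * L /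
          (p.natDegree * (θ * (1 / 2) ^ (i + 1)) ^ (k - 1))))) +
        ((k - 1 : ℕ) : ENNReal) * ENNReal.ofReal (Real.pi * (θ * (1 / 2) ^ n) ^ 2)) := by
  classical
  set Z : Set ℂ := {z : ℂ | ‖z - z₀‖ ≤ r ∧ ‖z‖ ≤ ρ ∧ Real.exp (-L) ≤ ‖p.eval z‖ ∧
      ‖p.eval z‖ ≤ Real.exp L} with hZ
  set W : ℕ → Set ℂ := fun i => {z | z ∈ Z ∧ ∃ b ∈ (P0 p).roots, ‖z - b‖ < θ * (1 / 2) ^ i} with hW
  have hθi : ∀ i : ℕ, 0 < θ * (1 / 2) ^ i ∧ θ * (1 / 2) ^ i ≤ 1 := by
    intro i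
    refine ⟨by positivity, ?_⟩
    exact mul_le_one₀ hθ1 (by positivity) (pow_le_one₀ (by norm_num) (by norm_num))
  have hstart : volume Z ≤
      ENNReal.ofReal (48 * k * (ρ + M) ^ k * (r * L / (p.natDegree * θ ^ (k - 1)))) +
      volume (W 0) := by
    refine (measure_mono ?_).trans ((measure_union_le _ _).trans
      (add_le_add (zone_core p hp hk hM h1 hθ0 hθ1 hL0 z₀ hr) le_rfl))
    intro z hz
    by_cases hb : ∀ b ∈ (P0 p).roots, θ ≤ ‖z - b‖
    · exact Or.inl ⟨hz.1, hz.2.1, hz.2.2.1, hz.2.2.2, hb⟩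
    · right
      push Not at hb
      obtain ⟨b, hb1, hb2⟩ := hb
      exact ⟨hz, b, hb1, by simpa using hb2⟩
  have hstep : ∀ i, volume (W i) ≤ ((k - 1 : ℕ) : ENNReal) *
        ENNReal.ofReal (48 * k * (ρ + M) ^ k * (θ * (1 / 2) ^ i * L /
          (p.natDegree * (θ * (1 / 2) ^ (i + 1)) ^ (k - 1)))) + volume (W (i + 1)) := by
    intro i
    have hcov : W i ⊆ (⋃ b ∈ (P0 p).roots.toFinset, {z : ℂ | ‖z - b‖ ≤ θ * (1 / 2) ^ i ∧
        ‖z‖ ≤ ρ ∧ Real.exp (-L) ≤ ‖p.eval z‖ ∧ ‖p.eval z‖ ≤ Real.exp L ∧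
        ∀ b ∈ (P0 p).roots, θ * (1 / 2) ^ (i + 1) ≤ ‖z - b‖}) ∪ W (i + 1) := by
      rintro z ⟨hz, b, hb1, hb2⟩
      by_cases hb : ∀ b ∈ (P0 p).roots, θ * (1 / 2) ^ (i + 1) ≤ ‖z - b‖
      · left
        exact mem_iUnion₂.2 ⟨b, Multiset.mem_toFinset.2 hb1, hb2.le, hz.2.1, hz.2.2.1,
          hz.2.2.2, hb⟩
      · right
        push Not at hb
        obtain ⟨b, hb1, hb2⟩ := hb
        exact ⟨hz, b, hb1, hb2⟩
    refine (measure_mono hcov).trans ((measure_union_le _ _).trans (add_le_add ?_ le_rfl))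
    refine (measure_biUnion_finset_le _ _).trans ?_
    refine (Finset.sum_le_sum (fun b _ => zone_core p hp hk hM h1 (hθi (i + 1)).1
      (hθi (i + 1)).2 hL0 b (hθi i).1.le)).trans ?_
    rw [Finset.sum_const, nsmul_eq_mul]
    gcongr
    exact P0_roots_card p hk
  have hend : volume (W n) ≤ ((k - 1 : ℕ) : ENNReal) *
      ENNReal.ofReal (Real.pi * (θ * (1 / 2) ^ n) ^ 2) := by
    have hcov : W n ⊆ ⋃ b ∈ (P0 p).roots.toFinset, closedBall b (θ * (1 / 2) ^ n) := by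
      rintro z ⟨-, b, hb1, hb2⟩
      refine mem_iUnion₂.2 ⟨b, Multiset.mem_toFinset.2 hb1, ?_⟩
      rw [mem_closedBall, dist_eq_norm]
      exact hb2.le
    refine (measure_mono hcov).trans ((measure_biUnion_finset_le _ _).trans ?_)
    rw [Finset.sum_congr rfl (fun b _ => volume_closedBall_eq b (hθi n).1.le),
      Finset.sum_const, nsmul_eq_mul]
    gcongr
    exact P0_roots_card p hk
  have hind : ∀ m, volume (W 0) ≤ (∑ i ∈ Finset.range m, ((k - 1 : ℕ) : ENNReal) *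
        ENNReal.ofReal (48 * k * (ρ + M) ^ k * (θ * (1 / 2) ^ i * L /
          (p.natDegree * (θ * (1 / 2) ^ (i + 1)) ^ (k - 1))))) + volume (W m) := by
    intro m
    induction m with
    | zero => simp
    | succ m ih =>
      rw [Finset.sum_range_succ]
      refine ih.trans ?_
      rw [add_assoc]
      exact add_le_add le_rfl (hstep m)
  refine hstart.trans (add_le_add le_rfl ((hind n).trans (add_le_add le_rfl hend)))

end Pool.Agent.U818.FC
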