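import Pool.Agent.U818.FC.Area
import Pool.Agent.U818.FC.Comp
import Pool.Agent.U818.FC.Zone
import Pool.Agent.U818.FC.Esc

/-!
# Reduction of hyperbolicity to the area of the zone
-/

set_option autoImplicit false

open Polynomial MeasureTheory Set Filter Topology Metric

namespace Pool.Agent.U818.FC

lemma near_crit (F : ℂ[X]) {N : ℕ} (hN : 3 ≤ N) (hdeg : F.natDegree = N) {y : ℂ}
    (hy : ∀ c ∈ F.derivative.roots, (1 : ℝ) / (N : ℝ) ^ 2 ≤ ‖y - c‖) {w : ℂ}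
    (hw : w ∈ closedBall y (1 / (N : ℝ) ^ 4)) :
    ‖F.derivative.eval w‖ ≤ 2 * ‖F.derivative.eval y‖ ∧
      ‖F.derivative.eval y‖ ≤ 2 * ‖F.derivative.eval w‖ := by
  have hN3 : (3 : ℝ) ≤ N := by exact_mod_cast hN
  have hN0 : (0 : ℝ) < N := by linarith
  have hd : F.derivative.natDegree ≤ N := by rw [natDegree_derivative]; omega
  rw [mem_closedBall, dist_eq_norm] at hw
  have hone := one_add_pow_le N (by omega)
  have hη : (0 : ℝ) ≤ 1 / (2 * (N : ℝ)) := by positivity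
  have h2 : (1 : ℝ) / (N : ℝ) ^ 4 ≤ 1 / (2 * (N : ℝ)) * (1 / (N : ℝ) ^ 2 - 1 / (N : ℝ) ^ 4) := by
    have h3 : 1 / (2 * (N : ℝ)) * (1 / (N : ℝ) ^ 2 - 1 / (N : ℝ) ^ 4) - 1 / (N : ℝ) ^ 4 =
        ((N : ℝ) ^ 2 - 1 - 2 * N) / (2 * (N : ℝ) ^ 5) := by
      field_simp
    have h4 : 0 ≤ ((N : ℝ) ^ 2 - 1 - 2 * N) / (2 * (N : ℝ) ^ 5) := by
      apply div_nonneg _ (by positivity)
      nlinarith
    linarith
  have h1 : (1 : ℝ) / (N : ℝ) ^ 4 ≤ 1 / (2 * (N : ℝ)) * (1 / (N : ℝ) ^ 2) := by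
    refine h2.trans (mul_le_mul_of_nonneg_left ?_ hη)
    have : (0 : ℝ) ≤ 1 / (N : ℝ) ^ 4 := by positivity
    linarith
  constructor
  · refine (norm_eval_le _ hd hη (x := y) (z := w) (fun c hc => ?_)).trans
      (mul_le_mul_of_nonneg_right hone (norm_nonneg _))
    have h3 := hy c hc
    calc ‖w - c‖ = ‖(w - y) + (y - c)‖ := by ring_nf
      _ ≤ ‖w - y‖ + ‖y - c‖ := norm_add_le _ _
      _ ≤ 1 / (2 * (N : ℝ)) * (1 / (N : ℝ) ^ 2) + ‖y - c‖ := by linarith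
      _ ≤ 1 / (2 * (N : ℝ)) * ‖y - c‖ + ‖y - c‖ := by
          have := mul_le_mul_of_nonneg_left h3 hη
          linarith
      _ = _ := by ring
  · refine (norm_eval_le _ hd hη (x := w) (z := y) (fun c hc => ?_)).trans
      (mul_le_mul_of_nonneg_right hone (norm_nonneg _))
    have h3 := hy c hc
    have h4 : ‖y - c‖ ≤ ‖w - y‖ + ‖w - c‖ := by
      calc ‖y - c‖ = ‖(w - c) - (w - y)‖ := by ring_nf
        _ ≤ ‖w - c‖ + ‖w - y‖ := norm_sub_le _ _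
        _ = _ := by ring
    have h5 : 1 / (N : ℝ) ^ 2 - 1 / (N : ℝ) ^ 4 ≤ ‖w - c‖ := by linarith
    have h6 := mul_le_mul_of_nonneg_left h5 hη
    linarith

/-- Conditions on the degree. -/
structure Large (K : ℕ) (M : ℝ) (N : ℕ) : Prop where
  five : 5 ≤ N
  pow : 63360 * M ≤ (N : ℝ) ^ 4
  exp : 8 * (N : ℝ) ^ (K + 10) ≤ 2 ^ N

lemma large_ev (K : ℕ) (M : ℝ) : ∀ᶠ N : ℕ in atTop, Large K M N := by
  have h1 : ∀ᶠ N : ℕ in atTop, 5 ≤ N := eventually_ge_atTop 5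
  have h2 : ∀ᶠ N : ℕ in atTop, 63360 * M ≤ (N : ℝ) ^ 4 :=
    ((tendsto_pow_atTop (by norm_num : (4 : ℕ) ≠ 0)).comp
      tendsto_natCast_atTop_atTop).eventually_ge_atTop _
  have h3 := (tendsto_pow_const_div_const_pow_of_one_lt (K + 10)
    (by norm_num : (1 : ℝ) < 2)).eventually (gt_mem_nhds (by norm_num : (0 : ℝ) < 1 / 8))
  filter_upwards [h1, h2, h3] with N a b c
  refine ⟨a, b, ?_⟩
  have hp : (0 : ℝ) < 2 ^ N := by positivity
  rw [div_lt_iff₀ hp] at c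
  linarith

/-- The zone of `F` around `v`. -/
def zoneSet (F : ℂ[X]) (C₀ : ℕ) (M r : ℝ) (v : ℂ) : Set ℂ :=
  {z : ℂ | ‖z - v‖ ≤ r ∧ ‖z‖ ≤ 9 * M ∧
    Real.exp (-(C₀ * Real.log F.natDegree)) ≤ ‖F.derivative.eval z‖ ∧
    ‖F.derivative.eval z‖ ≤ Real.exp (C₀ * Real.log F.natDegree)}

lemma exp_log_pow {N : ℕ} (hN : 1 ≤ N) (C₀ : ℕ) :
    Real.exp (C₀ * Real.log N) = (N : ℝ) ^ C₀ := by
  have hN0 : (0 : ℝ) < N := by exact_mod_cast hN
  rw [Real.exp_nat_mul, Real.exp_log hN0]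

lemma exp_neg_log_pow {N : ℕ} (hN : 1 ≤ N) (C₀ : ℕ) :
    Real.exp (-(C₀ * Real.log N)) = 1 / (N : ℝ) ^ C₀ := by
  rw [Real.exp_neg, exp_log_pow hN, one_div]

lemma big_outside (F : ℂ[X]) {K : ℕ} {M : ℝ} (hM1 : 1 ≤ M) (hL : Large K M F.natDegree)
    (hM : ∀ c ∈ F.derivative.roots, ‖c‖ ≤ M)
    (hbig : 1 / 4 < F.natDegree * ‖F.leadingCoeff‖ * (4 * M) ^ (F.natDegree - 1))
    {z : ℂ} (hz : 9 * M ≤ ‖z‖) : (F.natDegree : ℝ) ^ (K + 10) < ‖F.derivative.eval z‖ := by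
  have h1 := deriv_lower F (M := M) (r := 9 * M) (by linarith) hM hz
  refine lt_of_lt_of_le ?_ h1
  have h5 := hL.five
  have h2 : (9 * M - M) ^ (F.natDegree - 1) =
      (4 * M) ^ (F.natDegree - 1) * 2 ^ (F.natDegree - 1) := by
    rw [← mul_pow]
    congr 1
    ring
  rw [h2]
  have h3 := hL.exp
  have h4 : (2 : ℝ) ^ F.natDegree = 2 * 2 ^ (F.natDegree - 1) := by
    rw [← pow_succ']
    congr 1
    omega
  have h6 : (0 : ℝ) < 2 ^ (F.natDegree - 1) := by positivity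
  calc (F.natDegree : ℝ) ^ (K + 10) ≤ 1 / 4 * 2 ^ (F.natDegree - 1) := by linarith
    _ < F.natDegree * ‖F.leadingCoeff‖ * (4 * M) ^ (F.natDegree - 1) *
          2 ^ (F.natDegree - 1) := mul_lt_mul_of_pos_right hbig h6
    _ = _ := by ring

/-- The exceptional set of parameters, and its complement. -/
theorem good (F : ℂ[X]) {K : ℕ} {M : ℝ} (hM1 : 1 ≤ M) (hL : Large K M F.natDegree)
    (hM : ∀ c ∈ F.derivative.roots, ‖c‖ ≤ M) (h0 : ‖F.eval 0‖ ≤ M)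
    (hbig : 1 / 4 < F.natDegree * ‖F.leadingCoeff‖ * (4 * M) ^ (F.natDegree - 1))
    (V : Finset ℂ) (hK : V.card ≤ K) (hV : ∀ c ∈ F.derivative.roots, F.eval c ∈ V)
    {r : ℝ} (hrM : r ≤ M) {t : ℂ} (ht : ‖t‖ ≤ r)
    (g1 : ∀ v ∈ V, v + t ∉ zoneSet F (K + 10) M r v)
    (g2 : ∀ v ∈ V, ∀ c ∈ F.derivative.roots, (1 : ℝ) / (F.natDegree : ℝ) ^ 2 ≤ ‖v + t - c‖)
    (g3 : ∀ v ∈ V, ∀ l < K, ¬ (‖(Xp F v (l + 1)).eval t‖ ≤ 4 * F.natDegree * M ∧
      (F.natDegree : ℝ) ^ (K + 10) / 8 ≤ ‖(Xp F v (l + 1)).derivative.eval t‖)) :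
    Hyperbolic K (F + C t) := by
  have h5 := hL.five
  have hN1 : 1 ≤ F.natDegree := by omega
  have hne : F.derivative ≠ 0 := derivative_ne_zero.2 (by omega)
  have hN5 : (5 : ℝ) ≤ F.natDegree := by exact_mod_cast h5
  have hN0 : (0 : ℝ) < F.natDegree := by linarith
  have hpow10 : (F.natDegree : ℝ) ^ 10 ≤ (F.natDegree : ℝ) ^ (K + 10) :=
    pow_le_pow_right₀ (by linarith) (by omega)
  have hpow8 : (8 : ℝ) ≤ (F.natDegree : ℝ) ^ 10 := by
    calc (8 : ℝ) ≤ 5 ^ 10 := by norm_num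
      _ ≤ _ := pow_le_pow_left₀ (by norm_num) hN5 10
  have hε0 : (0 : ℝ) < 1 / (F.natDegree : ℝ) ^ (K + 10) := by positivity
  have hε8 : (1 : ℝ) / (F.natDegree : ℝ) ^ (K + 10) ≤ 1 / 8 :=
    one_div_le_one_div_of_le (by norm_num) (hpow8.trans hpow10)
  have hout : ∀ z : ℂ, ‖F.derivative.eval z‖ < 1 / (F.natDegree : ℝ) ^ (K + 10) →
      ‖z‖ ≤ 9 * M := by
    intro z hz
    by_contra hcon
    push Not at hcon
    have h1 := big_outside F hM1 hL hM hbig hcon.le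
    linarith [hpow8.trans hpow10]
  refine core F V hK t (fun c hc => hV c ((mem_roots hne).2 hc))
    (ε := 1 / (F.natDegree : ℝ) ^ (K + 10)) (B := (F.natDegree : ℝ) ^ (K + 10))
    (δ := 1 / (F.natDegree : ℝ) ^ 4) (R := 4 * F.natDegree * M) (by positivity)
    (by positivity) (by linarith) (hpow8.trans hpow10) ?_ ?_ ?_ g3 ?_
  · intro v hv
    by_contra hcon
    push Not at hcon
    apply g1 v hv
    have h1 : ‖v + t‖ ≤ 9 * M := by
      by_contra hcon2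
      push Not at hcon2
      have h1 := big_outside F hM1 hL hM hbig hcon2.le
      linarith [hcon.2]
    refine ⟨by simpa using ht, h1, ?_, ?_⟩
    · rw [exp_neg_log_pow hN1]
      exact hcon.1
    · rw [exp_log_pow hN1]
      exact hcon.2
  · intro v hv w hw
    exact near_crit F (by omega) rfl (g2 v hv) hw
  · intro x hx
    obtain ⟨c, hc, hd⟩ := near_critical_value F F.natDegree hN1
      (by rw [natDegree_derivative]; omega) hne (ρ := 9 * M) (by linarith) hε0 hout hx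
    refine ⟨F.eval c, hV c ((mem_roots hne).2 hc), hd.trans ?_⟩
    have h1 := hL.pow
    have h2 : 63360 * M * (F.natDegree : ℝ) ^ 6 ≤ (F.natDegree : ℝ) ^ (K + 10) := by
      calc 63360 * M * (F.natDegree : ℝ) ^ 6 ≤ (F.natDegree : ℝ) ^ 4 * (F.natDegree : ℝ) ^ 6 :=
            mul_le_mul_of_nonneg_right h1 (by positivity)
        _ = (F.natDegree : ℝ) ^ 10 := by ring
        _ ≤ _ := hpow10
    have h3 : 1760 * (1 / (F.natDegree : ℝ) ^ (K + 10)) * (F.natDegree : ℝ) ^ 2 * (9 * M) =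
        (63360 * M * (F.natDegree : ℝ) ^ 6) /
          ((F.natDegree : ℝ) ^ (K + 10) * (4 * (F.natDegree : ℝ) ^ 4)) := by
      field_simp
      ring
    rw [h3, div_le_iff₀ (by positivity)]
    calc 63360 * M * (F.natDegree : ℝ) ^ 6 ≤ (F.natDegree : ℝ) ^ (K + 10) := h2
      _ = 1 / (F.natDegree : ℝ) ^ 4 / 4 *
            ((F.natDegree : ℝ) ^ (K + 10) * (4 * (F.natDegree : ℝ) ^ 4)) := by
          field_simp
  · intro w hw
    exact escape F h5 hM1 hM h0 hbig (ht.trans hrM) hw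

lemma vol_g1 (F : ℂ[X]) (C₀ : ℕ) (M r : ℝ) (v : ℂ) :
    volume {t : ℂ | v + t ∈ zoneSet F C₀ M r v} = volume (zoneSet F C₀ M r v) := by
  have h1 : {t : ℂ | v + t ∈ zoneSet F C₀ M r v} = (fun t => v + t) ⁻¹' zoneSet F C₀ M r v := rfl
  rw [h1, measure_preimage_add]

lemma vol_g2 (F : ℂ[X]) (hN : 1 ≤ F.natDegree) (v : ℂ) :
    volume {t : ℂ | ∃ c ∈ F.derivative.roots, ‖v + t - c‖ < (1 : ℝ) / (F.natDegree : ℝ) ^ 2} ≤
      ENNReal.ofReal (Real.pi / (F.natDegree : ℝ) ^ 3) := by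
  classical
  have hN0 : (0 : ℝ) < F.natDegree := by exact_mod_cast hN
  have hcov : {t : ℂ | ∃ c ∈ F.derivative.roots, ‖v + t - c‖ < (1 : ℝ) / (F.natDegree : ℝ) ^ 2} ⊆
      ⋃ c ∈ F.derivative.roots.toFinset, closedBall (c - v) (1 / (F.natDegree : ℝ) ^ 2) := by
    rintro t ⟨c, hc, ht⟩
    refine mem_iUnion₂.2 ⟨c, Multiset.mem_toFinset.2 hc, ?_⟩
    rw [mem_closedBall, dist_eq_norm]
    have : t - (c - v) = v + t - c := by ring
    rw [this]
    exact ht.le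
  refine (measure_mono hcov).trans ((measure_biUnion_finset_le _ _).trans ?_)
  rw [Finset.sum_congr rfl (fun c _ => volume_closedBall_eq (c - v) (by positivity)),
    Finset.sum_const, nsmul_eq_mul]
  have hcard : F.derivative.roots.toFinset.card ≤ F.natDegree := by
    refine (Multiset.toFinset_card_le _).trans ?_
    rw [card_roots_deriv]
    omega
  calc (F.derivative.roots.toFinset.card : ENNReal) *
        ENNReal.ofReal (Real.pi * (1 / (F.natDegree : ℝ) ^ 2) ^ 2)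
      ≤ (F.natDegree : ENNReal) * ENNReal.ofReal (Real.pi * (1 / (F.natDegree : ℝ) ^ 2) ^ 2) := by
        gcongr
    _ = ENNReal.ofReal (Real.pi / (F.natDegree : ℝ) ^ 3) := by
        rw [← ENNReal.ofReal_natCast, ← ENNReal.ofReal_mul (by positivity)]
        congr 1
        field_simp

lemma vol_g3 (F : ℂ[X]) {K : ℕ} {M : ℝ} (hM1 : 1 ≤ M) (hN : 1 ≤ F.natDegree) (v : ℂ) {l : ℕ}
    (hl : l < K) :
    volume {t : ℂ | ‖(Xp F v (l + 1)).eval t‖ ≤ 4 * F.natDegree * M ∧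
      (F.natDegree : ℝ) ^ (K + 10) / 8 ≤ ‖(Xp F v (l + 1)).derivative.eval t‖} ≤
      ENNReal.ofReal (1024 * Real.pi * M ^ 2 / (F.natDegree : ℝ) ^ 3) := by
  have hN0 : (0 : ℝ) < F.natDegree := by exact_mod_cast hN
  have hN1 : (1 : ℝ) ≤ F.natDegree := by exact_mod_cast hN
  refine (area_mult _ (F.natDegree ^ (l + 1)) (Xp_natDegree F v hN le_rfl (l + 1))
    (by positivity) (by positivity)).trans (ENNReal.ofReal_le_ofReal ?_)
  push_cast
  have h1 : (F.natDegree : ℝ) ^ (l + 1) ≤ (F.natDegree : ℝ) ^ K :=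
    pow_le_pow_right₀ hN1 hl
  have h2 : (F.natDegree : ℝ) ^ (l + 1) * (Real.pi * (4 * F.natDegree * M) ^ 2) /
      ((F.natDegree : ℝ) ^ (K + 10) / 8) ^ 2 =
      (1024 * Real.pi * M ^ 2) * ((F.natDegree : ℝ) ^ (l + 1) * (F.natDegree : ℝ) ^ 2 /
        (F.natDegree : ℝ) ^ (2 * K + 20)) := by
    field_simp
    ring
  rw [h2, div_eq_mul_inv (1024 * Real.pi * M ^ 2)]
  apply mul_le_mul_of_nonneg_left _ (by positivity)
  rw [div_le_iff₀ (by positivity)]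
  have h3 : (F.natDegree : ℝ) ^ 3 ≠ 0 := by positivity
  calc (F.natDegree : ℝ) ^ (l + 1) * (F.natDegree : ℝ) ^ 2
      ≤ (F.natDegree : ℝ) ^ K * (F.natDegree : ℝ) ^ 2 :=
        mul_le_mul_of_nonneg_right h1 (by positivity)
    _ = (F.natDegree : ℝ) ^ (K + 2) := by rw [← pow_add]
    _ ≤ (F.natDegree : ℝ) ^ (2 * K + 17) := pow_le_pow_right₀ hN1 (by omega)
    _ = ((F.natDegree : ℝ) ^ 3)⁻¹ * (F.natDegree : ℝ) ^ (2 * K + 20) := by
        have h4 : (F.natDegree : ℝ) ^ (2 * K + 20) =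
            (F.natDegree : ℝ) ^ 3 * (F.natDegree : ℝ) ^ (2 * K + 17) := by
          rw [← pow_add]
          congr 1
          ring
        rw [h4, ← mul_assoc, inv_mul_cancel₀ h3, one_mul]

/-- For large degrees, `F + t` is hyperbolic unless a critical value falls into the zone, with the
exception of a set of area `O(N^(-3))`. -/
theorem reduction (F : ℂ[X]) {K : ℕ} (hK1 : 1 ≤ K) {M : ℝ} (hM1 : 1 ≤ M)
    (hL : Large K M F.natDegree)
    (hM : ∀ c ∈ F.derivative.roots, ‖c‖ ≤ M) (h0 : ‖F.eval 0‖ ≤ M)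
    (V : Finset ℂ) (hK : V.card ≤ K) (hV : ∀ c ∈ F.derivative.roots, F.eval c ∈ V)
    {r : ℝ} (hrM : r ≤ M) :
    volume {t : ℂ | ‖t‖ ≤ r ∧ ¬ Hyperbolic K (F + C t)} ≤
      ∑ v ∈ V, volume (zoneSet F (K + 10) M r v) +
        ENNReal.ofReal (Real.pi * K * (1 + 1024 * K * M ^ 2) / (F.natDegree : ℝ) ^ 3) := by
  have h5 := hL.five
  have hN1 : 1 ≤ F.natDegree := by omega
  have hN0 : (0 : ℝ) < F.natDegree := by exact_mod_cast hN1
  by_cases hbig : F.natDegree * ‖F.leadingCoeff‖ * (4 * M) ^ (F.natDegree - 1) ≤ 1 / 4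
  · have : {t : ℂ | ‖t‖ ≤ r ∧ ¬ Hyperbolic K (F + C t)} = ∅ := by
      apply eq_empty_of_forall_notMem
      rintro t ⟨ht, ht2⟩
      exact ht2 (tiny F hN1 hM1 hM h0 hbig hK1 (ht.trans hrM))
    rw [this]
    simp
  push Not at hbig
  have hcov : {t : ℂ | ‖t‖ ≤ r ∧ ¬ Hyperbolic K (F + C t)} ⊆
      (⋃ v ∈ V, {t : ℂ | v + t ∈ zoneSet F (K + 10) M r v}) ∪
      ((⋃ v ∈ V, {t : ℂ | ∃ c ∈ F.derivative.roots,
        ‖v + t - c‖ < (1 : ℝ) / (F.natDegree : ℝ) ^ 2}) ∪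
      (⋃ v ∈ V, ⋃ l ∈ Finset.range K, {t : ℂ | ‖(Xp F v (l + 1)).eval t‖ ≤
        4 * F.natDegree * M ∧
        (F.natDegree : ℝ) ^ (K + 10) / 8 ≤ ‖(Xp F v (l + 1)).derivative.eval t‖})) := by
    rintro t ⟨ht, ht2⟩
    by_contra hcon
    apply ht2
    rw [mem_union, mem_union] at hcon
    push Not at hcon
    obtain ⟨c1, c2, c3⟩ := hcon
    refine good F hM1 hL hM h0 hbig V hK hV hrM ht ?_ ?_ ?_
    · intro v hv h
      exact c1 (mem_iUnion₂.2 ⟨v, hv, h⟩)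
    · intro v hv c hc
      by_contra h
      push Not at h
      exact c2 (mem_iUnion₂.2 ⟨v, hv, c, hc, h⟩)
    · intro v hv l hl h
      exact c3 (mem_iUnion₂.2 ⟨v, hv, mem_iUnion₂.2 ⟨l, Finset.mem_range.2 hl, h⟩⟩)
  have b1 : volume (⋃ v ∈ V, {t : ℂ | v + t ∈ zoneSet F (K + 10) M r v}) ≤
      ∑ v ∈ V, volume (zoneSet F (K + 10) M r v) := by
    refine (measure_biUnion_finset_le _ _).trans (le_of_eq ?_)
    exact Finset.sum_congr rfl (fun v _ => vol_g1 F _ M r v)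
  have hVK : (V.card : ENNReal) ≤ (K : ENNReal) := by exact_mod_cast hK
  have b2 : volume (⋃ v ∈ V, {t : ℂ | ∃ c ∈ F.derivative.roots,
        ‖v + t - c‖ < (1 : ℝ) / (F.natDegree : ℝ) ^ 2}) ≤
      ENNReal.ofReal (K * (Real.pi / (F.natDegree : ℝ) ^ 3)) := by
    refine (measure_biUnion_finset_le _ _).trans ?_
    refine (Finset.sum_le_sum (fun v _ => vol_g2 F hN1 v)).trans ?_
    rw [Finset.sum_const, nsmul_eq_mul, ENNReal.ofReal_mul (p := (K : ℝ)) (by positivity),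
      ENNReal.ofReal_natCast]
    gcongr
  have b3 : volume (⋃ v ∈ V, ⋃ l ∈ Finset.range K, {t : ℂ | ‖(Xp F v (l + 1)).eval t‖ ≤
        4 * F.natDegree * M ∧
        (F.natDegree : ℝ) ^ (K + 10) / 8 ≤ ‖(Xp F v (l + 1)).derivative.eval t‖}) ≤
      ENNReal.ofReal (K * (K * (1024 * Real.pi * M ^ 2 / (F.natDegree : ℝ) ^ 3))) := by
    refine (measure_biUnion_finset_le _ _).trans ?_
    refine (Finset.sum_le_sum (fun v _ => (measure_biUnion_finset_le _ _).trans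
      (Finset.sum_le_sum (fun l hl => vol_g3 F hM1 hN1 v (Finset.mem_range.1 hl))))).trans ?_
    rw [Finset.sum_const, Finset.sum_const, Finset.card_range, nsmul_eq_mul, nsmul_eq_mul,
      ENNReal.ofReal_mul (p := (K : ℝ)) (by positivity),
      ENNReal.ofReal_mul (p := (K : ℝ)) (by positivity), ENNReal.ofReal_natCast]
    gcongr
  refine (measure_mono hcov).trans ((measure_union_le _ _).trans (add_le_add b1 ?_))
  refine ((measure_union_le _ _).trans (add_le_add b2 b3)).trans ?_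
  rw [← ENNReal.ofReal_add (by positivity) (by positivity)]
  apply ENNReal.ofReal_le_ofReal
  apply le_of_eq
  field_simp

end Pool.Agent.U818.FC
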